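import Mathlib
import Pool.Agent.MF.LemT

set_option autoImplicit false

/-!
# MP_141f81, Section 9: commutativity for unsupported pairs

`X` commutes with `L w` (up to bounded range) for `w` in a subgroup `D` of bounded index, `X Θ ≈ Θ X`, and
`Θ L (Θ ^ i v) ≈ L (Θ ^ (i + 1) v)`.  Then `X L v ≈ L v X`: two of the `Θ ^ i v` agree modulo `D`, hence
`Θ ^ i (1 + Θ ^ N) [X, L v] ≈ 0`, and `Θ ^ i (1 + Θ ^ N)` has a bounded kernel by lemma T.
-/

namespace Helper34MF

open Pool.Agent.MF.LemT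

variable {U : Type} [AddCommGroup U] [Finite U]

/-- left cancellation of a map with a bounded kernel -/
theorem nr_le_of_mul (A T : AddMonoid.End U) {k c : ℕ} (hk : Nat.card (kr A) ≤ k) (hc : nr (A * T) ≤ c) :
    nr T ≤ k * c := by
  have h := card_le_map (AddMonoidHom.range T) (AddMonoidHom.range (A * T)) A hk (by
    rintro _ ⟨v, rfl⟩
    exact ⟨v, rfl⟩)
  exact h.trans (Nat.mul_le_mul_left _ hc)

/-- the kernel of a product -/
theorem kr_mul_le (A B : AddMonoid.End U) {a b : ℕ} (ha : Nat.card (kr A) ≤ a) (hb : Nat.card (kr B) ≤ b) :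
    Nat.card (kr (A * B)) ≤ b * a := by
  have h := card_le_map (kr (A * B)) (kr A) B hb (by
    intro v hv
    exact hv)
  exact h.trans (Nat.mul_le_mul_left _ ha)

theorem kr_pow_le (Θ : AddMonoid.End U) {K : ℕ} (hK : Nat.card (kr Θ) ≤ K) (i : ℕ) :
    Nat.card (kr (Θ ^ i)) ≤ K ^ i := by
  induction i with
  | zero =>
    rw [pow_zero, pow_zero]
    have h : kr (1 : AddMonoid.End U) = ⊥ := by
      ext v
      exact Iff.rfl
    rw [h]
    exact le_of_eq AddSubgroup.card_bot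
  | succ i ih =>
    rw [pow_succ, pow_succ, mul_comm (K ^ i)]
    exact kr_mul_le _ _ ih hK

section

variable (two : ∀ u : U, u + u = 0)
include two

theorem nr_self_le (f : AddMonoid.End U) : nr (f + f) = 1 := by
  rw [Pool.Agent.MF.LemT.add_self two, nr_zero]

/-- `Θ ^ i L v ≈ L (Θ ^ i v)` -/
theorem pow_L {K : ℕ} (Θ : AddMonoid.End U) (L : U → AddMonoid.End U) (v : U) (m : ℕ)
    (h : ∀ i < m, nr (Θ * L ((Θ ^ i) v) + L ((Θ ^ (i + 1)) v)) ≤ K) :
    ∀ i ≤ m, nr (Θ ^ i * L v + L ((Θ ^ i) v)) ≤ K ^ i := by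
  intro i
  induction i with
  | zero =>
    intro _
    rw [pow_zero, pow_zero, one_mul, one_app, nr_self_le two]
  | succ i ih =>
    intro hi
    rw [pow_succ K]
    refine tr two (b := Θ * L ((Θ ^ i) v)) ?_ (h i (by omega))
    have e : Θ ^ (i + 1) * L v + Θ * L ((Θ ^ i) v) = Θ * (Θ ^ i * L v + L ((Θ ^ i) v)) := by
      rw [mul_add, pow_succ', mul_assoc]
    rw [e]
    exact (nr_mul_left _ _).trans (ih (by omega))

/-- `X Θ ^ i ≈ Θ ^ i X` -/
theorem pow_X {K : ℕ} (Θ X : AddMonoid.End U) (h : nr (X * Θ + Θ * X) ≤ K) (i : ℕ) :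
    nr (X * Θ ^ i + Θ ^ i * X) ≤ K ^ i := by
  induction i with
  | zero =>
    rw [pow_zero, pow_zero, one_mul, mul_one, nr_self_le two]
  | succ i ih =>
    rw [pow_succ K]
    refine tr two (b := Θ ^ i * X * Θ) ?_ ?_
    · have e : X * Θ ^ (i + 1) + Θ ^ i * X * Θ = (X * Θ ^ i + Θ ^ i * X) * Θ := by
        rw [add_mul, pow_succ, mul_assoc X]
      rw [e]
      exact (nr_mul_right _ _).trans ih
    · have e : Θ ^ i * X * Θ + Θ ^ (i + 1) * X = Θ ^ i * (X * Θ + Θ * X) := by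
        rw [mul_add, pow_succ, mul_assoc, mul_assoc]
      rw [e]
      exact (nr_mul_left _ _).trans h

end

/-- **The step for one pair `(X, v)`, explicit.** -/
theorem comm_pair {K : ℕ} {Θ ζ g s : AddMonoid.End U} (hL : Lab K Θ ζ g s) (hk : Nat.card (kr Θ) ≤ K)
    (L : U → AddMonoid.End U) (hadd : ∀ u v, nr (L (u + v) + (L u + L v)) ≤ K) (X : AddMonoid.End U)
    (hX : nr (X * Θ + Θ * X) ≤ K) (D : AddSubgroup U) (hD : D.index ≤ K)
    (hcomm : ∀ w ∈ D, nr (X * L w + L w * X) ≤ K) (v : U)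
    (hv : ∀ i < K, nr (Θ * L ((Θ ^ i) v) + L ((Θ ^ (i + 1)) v)) ≤ K) (E : ℕ)
    (hE : ∀ N, 1 ≤ N → N ≤ K → Nat.card (kr (Θ ^ N + 1)) ≤ E) :
    nr (X * L v + L v * X) ≤ E * K ^ K * K ^ (6 * K + 3) := by
  have two := hL.two
  have hK : 1 ≤ K := hL.Kpos
  -- pigeonhole
  have hfin : Finite (U ⧸ D) := inferInstance
  have hcard : Nat.card (U ⧸ D) ≤ K := hD
  obtain ⟨i, j, hij, hjK, hmem⟩ : ∃ i j : ℕ, i < j ∧ j ≤ K ∧ (Θ ^ i) v + (Θ ^ j) v ∈ D := by
    have hni : ¬ Function.Injective (fun i : Fin (K + 1) => (((Θ ^ (i : ℕ)) v : U) : U ⧸ D)) := by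
      intro hinj
      have := Nat.card_le_card_of_injective _ hinj
      rw [Nat.card_fin] at this
      omega
    rw [Function.not_injective_iff] at hni
    obtain ⟨a, b, hab, hne⟩ := hni
    have hmem : ∀ a b : Fin (K + 1), (((Θ ^ (a : ℕ)) v : U) : U ⧸ D) = (((Θ ^ (b : ℕ)) v : U) : U ⧸ D) →
        (Θ ^ (a : ℕ)) v + (Θ ^ (b : ℕ)) v ∈ D := by
      intro a b h
      have h1 := QuotientAddGroup.eq.mp h
      have h2 : -((Θ ^ (a : ℕ)) v) = (Θ ^ (a : ℕ)) v := neg_eq_of_add_eq_zero_left (two _)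
      rwa [h2] at h1
    rcases Nat.lt_or_gt_of_ne (fun h => hne (Fin.ext h)) with h | h
    · exact ⟨a, b, h, by omega, hmem a b hab⟩
    · exact ⟨b, a, h, by omega, hmem b a hab.symm⟩
  -- `L w ≈ (Θ ^ i + Θ ^ j) L v`
  obtain ⟨A, hA⟩ : ∃ A : AddMonoid.End U, A = Θ ^ i + Θ ^ j := ⟨_, rfl⟩
  have h1 : nr (L ((Θ ^ i) v + (Θ ^ j) v) + A * L v) ≤ K * (K ^ i * K ^ j) := by
    refine tr two (hadd _ _) ?_
    have e : L ((Θ ^ i) v) + L ((Θ ^ j) v) + A * L v =
        (Θ ^ i * L v + L ((Θ ^ i) v)) + (Θ ^ j * L v + L ((Θ ^ j) v)) := by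
      rw [hA, add_mul]; abel
    rw [e]
    exact (nr_add _ _).trans (Nat.mul_le_mul (pow_L two Θ L v K hv i (by omega)) (pow_L two Θ L v K hv j hjK))
  -- `X A L v ≈ A L v X`
  have h2 : nr (X * (A * L v) + A * L v * X) ≤
      K * (K ^ i * K ^ j) * (K * (K * (K ^ i * K ^ j))) := by
    refine tr two (b := X * L ((Θ ^ i) v + (Θ ^ j) v)) ?_ ?_
    · rw [← mul_add, add_comm]
      exact (nr_mul_left _ _).trans h1
    · refine tr two (b := L ((Θ ^ i) v + (Θ ^ j) v) * X) (hcomm _ hmem) ?_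
      rw [← add_mul]
      exact (nr_mul_right _ _).trans h1
  -- `X A ≈ A X`
  have h3 : nr (X * A + A * X) ≤ K ^ i * K ^ j := by
    have e : X * A + A * X = (X * Θ ^ i + Θ ^ i * X) + (X * Θ ^ j + Θ ^ j * X) := by
      rw [hA, mul_add, add_mul]; abel
    rw [e]
    exact (nr_add _ _).trans (Nat.mul_le_mul (pow_X two Θ X hX i) (pow_X two Θ X hX j))
  -- `A [X, L v] ≈ 0`
  have h4 : nr (A * (X * L v + L v * X)) ≤ K ^ i * K ^ j * (K * (K ^ i * K ^ j) * (K * (K * (K ^ i * K ^ j)))) := by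
    have e : A * (X * L v + L v * X) = A * (X * L v) + A * L v * X := by
      rw [mul_add, mul_assoc A (L v) X]
    rw [e]
    refine tr two (b := X * (A * L v)) ?_ h2
    have e2 : A * (X * L v) + X * (A * L v) = (X * A + A * X) * L v := by
      rw [add_mul (X * A), mul_assoc X A, mul_assoc A X]; abel
    rw [e2]
    exact (nr_mul_right _ _).trans h3
  -- the kernel of `A`
  have h5 : Nat.card (kr A) ≤ E * K ^ K := by
    have e : A = Θ ^ i * (Θ ^ (j - i) + 1) := by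
      rw [mul_add, mul_one, ← pow_add, hA, add_comm]
      congr 2
      omega
    rw [e]
    refine (kr_mul_le _ _ (kr_pow_le Θ hk i) (hE (j - i) (by omega) (by omega))).trans ?_
    exact Nat.mul_le_mul_left _ (Nat.pow_le_pow_right hK (by omega))
  refine (nr_le_of_mul A _ h5 h4).trans (Nat.mul_le_mul_left _ ?_)
  have e : K ^ i * K ^ j * (K * (K ^ i * K ^ j) * (K * (K * (K ^ i * K ^ j)))) = K ^ (3 * i + 3 * j + 3) := by
    ring
  rw [e]
  exact Nat.pow_le_pow_right hK (by omega)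

/-- **COMM.** -/
theorem comm_step (K : ℕ) : ∃ b0 : ℕ, ∀ (U : Type) [AddCommGroup U] [Finite U] (Θ ζ g s : AddMonoid.End U),
    Lab K Θ ζ g s → Nat.card (kr Θ) ≤ K → ∀ L : U → AddMonoid.End U,
    (∀ u v, nr (L (u + v) + (L u + L v)) ≤ K) → ∀ X : AddMonoid.End U, nr (X * Θ + Θ * X) ≤ K →
    ∀ D : AddSubgroup U, D.index ≤ K → (∀ w ∈ D, nr (X * L w + L w * X) ≤ K) → ∀ v : U,
    (∀ i < K, nr (Θ * L ((Θ ^ i) v) + L ((Θ ^ (i + 1)) v)) ≤ K) → nr (X * L v + L v * X) ≤ b0 := by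
  choose B hB using fun N : ℕ => exists_bound K (N + 1) (by omega)
  refine ⟨(∑ N ∈ Finset.range (K + 1), B N) * K ^ K * K ^ (6 * K + 3), ?_⟩
  intro U _ _ Θ ζ g s hL hk L hadd X hX D hD hcomm v hv
  refine comm_pair hL hk L hadd X hX D hD hcomm v hv _ ?_
  intro N hN1 hN
  obtain ⟨M, rfl⟩ : ∃ M, N = M + 1 := ⟨N - 1, by omega⟩
  refine (hB M U Θ ζ g s hL).trans ?_
  exact Finset.single_le_sum (f := B) (fun _ _ => Nat.zero_le _) (Finset.mem_range.mpr (by omega))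

/-! ### the subgroup on which the label rule can be iterated -/

/-- `{v : Θ ^ i v ∈ W for all i ≤ m}` -/
def iter (Θ : AddMonoid.End U) (W : AddSubgroup U) (m : ℕ) : AddSubgroup U :=
  ⨅ i : Fin (m + 1), W.comap (Θ ^ (i : ℕ) : AddMonoid.End U)

omit [Finite U] in
theorem mem_iter {Θ : AddMonoid.End U} {W : AddSubgroup U} {m : ℕ} {v : U} :
    v ∈ iter Θ W m ↔ ∀ i ≤ m, (Θ ^ i) v ∈ W := by
  unfold iter
  rw [AddSubgroup.mem_iInf]
  constructor
  · intro h i hi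
    exact h ⟨i, by omega⟩
  · intro h i
    exact h i (by omega)

omit [Finite U] in
theorem iter_le (Θ : AddMonoid.End U) (W : AddSubgroup U) (m : ℕ) : iter Θ W m ≤ W := by
  intro v hv
  have := mem_iter.mp hv 0 (by omega)
  simpa using this

theorem index_comap_le {V W : Type*} [AddCommGroup V] [AddCommGroup W] [Finite W] (f : V →+ W) (H : AddSubgroup W) :
    (H.comap f).index ≤ H.index := by
  rw [AddSubgroup.index_comap]
  exact Nat.le_of_dvd (Nat.pos_of_ne_zero AddSubgroup.FiniteIndex.index_ne_zero) (AddSubgroup.relIndex_dvd_index_of_normal H f.range)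

theorem index_iter_le (Θ : AddMonoid.End U) (W : AddSubgroup U) (m C : ℕ) (hW : W.index ≤ C) :
    (iter Θ W m).index ≤ C ^ (m + 1) := by
  unfold iter
  refine (AddSubgroup.index_iInf_le _).trans ?_
  refine (Finset.prod_le_pow_card _ _ C (fun i _ => ?_)).trans ?_
  · exact (index_comap_le (Θ ^ (i : ℕ) : AddMonoid.End U) W).trans hW
  · simp

end Helper34MF
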