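import Mathlib
import Pool.Agent.helper35.MF.Conn

set_option autoImplicit false

/-!
# MP_141f81, Section 9: dense generating sets generate in boundedly many steps; popular cosets
-/

namespace Helper34MF

open Pool.Agent.helper35.MF (Ball)

section

variable {G : Type*} [AddCommGroup G]

theorem Ball.zero_mem (X : Set G) (r : ℕ) : (0 : G) ∈ Ball X r := ⟨[], by simp, by simp, by simp⟩

theorem Ball.mono' {X : Set G} {r r' : ℕ} (h : r ≤ r') : Ball X r ⊆ Ball X r' := by
  rintro g ⟨l, h1, h2, h3⟩
  exact ⟨l, h1.trans h, h2, h3⟩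

theorem Ball.add_mem {X : Set G} {r : ℕ} {g x : G} (hg : g ∈ Ball X r) (hx : x ∈ X) : g + x ∈ Ball X (r + 1) := by
  obtain ⟨l, h1, h2, h3⟩ := hg
  refine ⟨x :: l, by simp; omega, ?_, by rw [List.sum_cons, h3, add_comm]⟩
  intro y hy
  rcases List.mem_cons.mp hy with h | h
  · rw [h]; exact hx
  · exact h2 y h

theorem Ball.subset_closure (X : Set G) (r : ℕ) : Ball X r ⊆ AddSubgroup.closure X := by
  rintro g ⟨l, -, h2, rfl⟩
  exact AddSubgroup.list_sum_mem _ (fun x hx => AddSubgroup.subset_closure (h2 x hx))

/-- if the ball does not grow it is the group -/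
theorem Ball.closure_subset (two : ∀ g : G, g + g = 0) {X : Set G} {r : ℕ} (h : Ball X (r + 1) ⊆ Ball X r) :
    (AddSubgroup.closure X : Set G) ⊆ Ball X r := by
  intro g hg
  induction hg using AddSubgroup.closure_induction_left with
  | zero => exact Ball.zero_mem X r
  | add_left x hx y _ ih =>
    have := h (Ball.add_mem ih hx)
    rwa [add_comm] at this
  | neg_add_cancel x hx y _ ih =>
    have h2 : -x = x := neg_eq_of_add_eq_zero_left (two x)
    rw [h2]
    have := h (Ball.add_mem ih hx)
    rwa [add_comm] at this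

/-- **Dense generation.** -/
theorem dense_gen [Finite G] (two : ∀ g : G, g + g = 0) (X : Set G) (h0 : (0 : G) ∈ X) (k : ℕ)
    (hX : Nat.card G ≤ k * X.ncard) : (AddSubgroup.closure X : Set G) ⊆ Ball X (3 * k + 1) := by
  have hpos : 0 < X.ncard := (Set.ncard_pos (Set.toFinite _)).mpr ⟨0, h0⟩
  have key : ∀ j : ℕ, (AddSubgroup.closure X : Set G) ⊆ Ball X (3 * j + 1) ∨
      (j + 1) * X.ncard ≤ (Ball X (3 * j + 1)).ncard := by
    intro j
    induction j with
    | zero =>
      right
      rw [zero_add, one_mul]
      refine Set.ncard_le_ncard ?_ (Set.toFinite _)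
      intro x hx
      exact ⟨[x], by simp, by simpa using hx, by simp⟩
    | succ j ih =>
      rcases ih with ih | ih
      · exact Or.inl (ih.trans (Ball.mono' (by omega)))
      · by_cases hcl : (AddSubgroup.closure X : Set G) ⊆ Ball X (3 * (j + 1) + 1)
        · exact Or.inl hcl
        · right
          have h1 : ¬ Ball X (3 * j + 2 + 1) ⊆ Ball X (3 * j + 2) := by
            intro h
            exact hcl ((Ball.closure_subset two h).trans (Ball.mono' (by omega)))
          obtain ⟨h, hh, hh'⟩ := Set.not_subset.mp h1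
          have h2 : (fun x => h + x) '' X ⊆ Ball X (3 * (j + 1) + 1) := by
            rintro _ ⟨x, hx, rfl⟩
            exact Ball.mono' (by omega) (Ball.add_mem hh hx)
          have h3 : Disjoint (Ball X (3 * j + 1)) ((fun x => h + x) '' X) := by
            rw [Set.disjoint_left]
            rintro y hy ⟨x, hx, hxy⟩
            apply hh'
            have h4 : h = y + x := by
              have h5 : h + x = y := hxy
              rw [← h5, add_assoc, two, add_zero]
            rw [h4]
            exact Ball.add_mem hy hx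
          have h4 : ((fun x => h + x) '' X).ncard = X.ncard :=
            Set.ncard_image_of_injective _ (add_right_injective h)
          calc (j + 1 + 1) * X.ncard = (j + 1) * X.ncard + X.ncard := by ring
            _ ≤ (Ball X (3 * j + 1)).ncard + ((fun x => h + x) '' X).ncard := by rw [h4]; gcongr
            _ = (Ball X (3 * j + 1) ∪ (fun x => h + x) '' X).ncard :=
                (Set.ncard_union_eq h3 (Set.toFinite _) (Set.toFinite _)).symm
            _ ≤ (Ball X (3 * (j + 1) + 1)).ncard := by
                refine Set.ncard_le_ncard (Set.union_subset ?_ h2) (Set.toFinite _)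
                exact Ball.mono' (by omega)
  rcases key k with h | h
  · exact h
  · exfalso
    have h1 : (Ball X (3 * k + 1)).ncard ≤ Nat.card G := Set.ncard_le_card _
    have h2 : (k + 1) * X.ncard ≤ k * X.ncard := h.trans (h1.trans hX)
    have h3 : (k + 1) * X.ncard = k * X.ncard + X.ncard := by ring
    omega

/-- the index of the closure of a dense set -/
theorem index_closure_le [Finite G] (X : Set G) (h0 : (0 : G) ∈ X) (k : ℕ) (hX : Nat.card G ≤ k * X.ncard) :
    (AddSubgroup.closure X).index ≤ k := by
  have hpos : 0 < X.ncard := (Set.ncard_pos (Set.toFinite _)).mpr ⟨0, h0⟩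
  have h1 : X.ncard ≤ Nat.card (AddSubgroup.closure X) := by
    rw [← SetLike.coe_sort_coe, Nat.card_coe_set_eq]
    exact Set.ncard_le_ncard AddSubgroup.subset_closure (Set.toFinite _)
  have h2 := AddSubgroup.card_mul_index (AddSubgroup.closure X)
  have h3 : Nat.card (AddSubgroup.closure X) * (AddSubgroup.closure X).index ≤
      Nat.card (AddSubgroup.closure X) * k := by
    rw [h2, mul_comm]
    exact hX.trans (Nat.mul_le_mul_left _ h1)
  exact Nat.le_of_mul_le_mul_left h3 (lt_of_lt_of_le hpos h1)

/-- **Popular coset.**  A set of values meets some coset of `W` in at least a `1 / index` part. -/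
theorem popular_coset [Finite G] (W : AddSubgroup G) (V : Set G) :
    ∃ x : G, V.ncard ≤ W.index * {v | v ∈ V ∧ v - x ∈ W}.ncard := by
  classical
  have : Fintype (G ⧸ W) := Fintype.ofFinite _
  have : Fintype V := Fintype.ofFinite _
  by_contra hcon
  push Not at hcon
  have h1 : V.ncard = ∑ q : G ⧸ W, {v | v ∈ V ∧ (v : G ⧸ W) = q}.ncard := by
    rw [Set.ncard_eq_toFinset_card' V]
    rw [Finset.card_eq_sum_card_fiberwise (f := fun v : G => (v : G ⧸ W)) (t := Finset.univ) (by simp)]
    refine Finset.sum_congr rfl (fun q _ => ?_)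
    rw [← Set.ncard_coe_finset]
    congr 1
    ext v
    simp
  have h2 : ∀ q : G ⧸ W, W.index * {v | v ∈ V ∧ (v : G ⧸ W) = q}.ncard < V.ncard := by
    intro q
    obtain ⟨x, rfl⟩ := QuotientAddGroup.mk_surjective q
    have h3 := hcon x
    refine lt_of_le_of_lt (Nat.mul_le_mul_left _ (Set.ncard_le_ncard ?_ (Set.toFinite _))) h3
    rintro v ⟨hv, hq⟩
    refine ⟨hv, ?_⟩
    have h4 := QuotientAddGroup.eq.mp hq.symm
    rwa [neg_add_eq_sub] at h4
  have h3 : W.index * V.ncard < ∑ q : G ⧸ W, V.ncard := by
    rw [h1, Finset.mul_sum, ← h1]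
    refine Finset.sum_lt_sum_of_nonempty ⟨0, Finset.mem_univ _⟩ (fun q _ => h2 q)
  rw [Finset.sum_const, Finset.card_univ, ← Nat.card_eq_fintype_card, smul_eq_mul] at h3
  exact lt_irrefl _ h3

end

end Helper34MF
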