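import Mathlib
import Pool.Agent.helper34.MF.Comm
import Pool.Agent.helper34.MF.Gen

set_option autoImplicit false

/-!
# MP_141f81, Section 9: commutativity and squares on a subgroup of bounded index

From letters `z` with values `p z` and operators `A z` to the subgroup `W'` generated by the differences of the letters
with values in one popular coset of `iter Θ W K`: all `L u`, `L v` commute for `u, v ∈ W'`, and `L (φ u) ≈ L u L u`.
-/

namespace Helper34MF

open Pool.Agent.MF.LemT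
open Pool.Agent.helper35.MF (Ball)

variable {U : Type} [AddCommGroup U] [Finite U]

/-- maps which are additive up to bounded range and bounded on generators are bounded on words -/
theorem list_bound (f : U → AddMonoid.End U) (W : AddSubgroup U) (X : Set U) (hX : X ⊆ W) {c : ℕ}
    (two : ∀ u : U, u + u = 0) (h0 : nr (f 0) ≤ c)
    (hadd : ∀ u ∈ W, ∀ v ∈ W, nr (f (u + v) + (f u + f v)) ≤ c) (hd : ∀ d ∈ X, nr (f d) ≤ c) :
    ∀ l : List U, (∀ x ∈ l, x ∈ X) → nr (f l.sum) ≤ c ^ (2 * l.length + 1) := by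
  intro l
  induction l with
  | nil =>
    intro _
    simpa using h0
  | cons d l ih =>
    intro h
    have hd' : d ∈ X := h d (by simp)
    have hl : ∀ x ∈ l, x ∈ X := fun x hx => h x (by simp [hx])
    have hs : l.sum ∈ W := AddSubgroup.list_sum_mem _ (fun x hx => hX (hl x hx))
    have e : f (d :: l).sum = (f (d + l.sum) + (f d + f l.sum)) + (f d + f l.sum) := by
      rw [List.sum_cons]
      have e1 : (f (d + l.sum) + (f d + f l.sum)) + (f d + f l.sum) =
          f (d + l.sum) + ((f d + f l.sum) + (f d + f l.sum)) := by abel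
      rw [e1, Pool.Agent.MF.LemT.add_self two, add_zero]
    rw [e]
    refine (nr_add _ _).trans ?_
    refine (Nat.mul_le_mul (hadd d (hX hd') _ hs) ((nr_add _ _).trans (Nat.mul_le_mul (hd d hd') (ih hl)))).trans ?_
    rw [List.length_cons]
    apply le_of_eq
    ring

/-- the letters and their rules -/
structure Letters (K : ℕ) (Θ ζ g s φ : AddMonoid.End U) (L : U → AddMonoid.End U) (W : AddSubgroup U)
    {ι : Type} (p : ι → U) (A : ι → AddMonoid.End U) : Prop where
  lab : Lab K Θ ζ g s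
  kT : Nat.card (kr Θ) ≤ K
  add : ∀ u v, nr (L (u + v) + (L u + L v)) ≤ K
  W_index : W.index ≤ K
  rule : ∀ u ∈ W, nr (Θ * L u + L (Θ u)) ≤ K
  AA : ∀ z z', nr (A z + A z' + L (p z + p z')) ≤ K
  AT : ∀ z, nr (A z * Θ + Θ * A z) ≤ K
  D : ∀ z, ∃ D : AddSubgroup U, D.index ≤ K ∧ ∀ w ∈ D, nr (A z * L w + L w * A z) ≤ K
  sq : ∀ z z', nr (L (φ (p z + p z')) + (A z * A z + A z' * A z')) ≤ K
  dense : Nat.card U ≤ K * (Set.range p).ncard

/-- the differences of the letters with values in the coset `x + iter Θ W K` -/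
def diffs {ι : Type} (p : ι → U) (P : Set ι) : Set U := {d | ∃ z ∈ P, ∃ z' ∈ P, d = p z + p z'}

omit [Finite U] in
theorem diffs_mono {ι : Type} (p : ι → U) {P Q : Set ι} (h : P ⊆ Q) : diffs p P ⊆ diffs p Q := by
  rintro d ⟨z, hz, z', hz', rfl⟩
  exact ⟨z, h hz, z', h hz', rfl⟩

omit [Finite U] in
theorem zero_mem_diffs (two : ∀ u : U, u + u = 0) {ι : Type} (p : ι → U) {P : Set ι} {z : ι} (hz : z ∈ P) :
    (0 : U) ∈ diffs p P := ⟨z, hz, z, hz, (two _).symm⟩

/-- the set of differences is dense if the set of values is -/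
theorem card_diffs {ι : Type} (p : ι → U) (P : Set ι) (hP : P.Nonempty) : (p '' P).ncard ≤ (diffs p P).ncard := by
  obtain ⟨z0, hz0⟩ := hP
  have h : (fun v => p z0 + v) '' (p '' P) ⊆ diffs p P := by
    rintro _ ⟨_, ⟨z, hz, rfl⟩, rfl⟩
    exact ⟨z0, hz0, z, hz, rfl⟩
  rw [← Set.ncard_image_of_injective (p '' P) (add_right_injective (p z0))]
  exact Set.ncard_le_ncard h (Set.toFinite _)

variable {K : ℕ} {Θ ζ g s φ : AddMonoid.End U} {L : U → AddMonoid.End U} {W : AddSubgroup U}
  {ι : Type} {p : ι → U} {A : ι → AddMonoid.End U}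

/-- the product of two nearly equal maps -/
theorem nr_mul_mul {a b c d : AddMonoid.End U} {x y : ℕ} (two : ∀ u : U, u + u = 0) (h1 : nr (a + b) ≤ x)
    (h2 : nr (c + d) ≤ y) : nr (a * c + b * d) ≤ x * y := by
  refine tr two (b := b * c) ?_ ?_
  · rw [← add_mul]
    exact (nr_mul_right _ _).trans h1
  · rw [← mul_add]
    exact (nr_mul_left _ _).trans h2

/-- letters and elements of `iter Θ W K` commute -/
theorem Letters.comm_AL (h : Letters K Θ ζ g s φ L W p A) {b0 : ℕ}
    (hb : ∀ X : AddMonoid.End U, nr (X * Θ + Θ * X) ≤ K → ∀ D : AddSubgroup U, D.index ≤ K →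
      (∀ w ∈ D, nr (X * L w + L w * X) ≤ K) → ∀ v,
      (∀ i < K, nr (Θ * L ((Θ ^ i) v) + L ((Θ ^ (i + 1)) v)) ≤ K) → nr (X * L v + L v * X) ≤ b0)
    (z : ι) {v : U} (hv : v ∈ iter Θ W K) : nr (A z * L v + L v * A z) ≤ b0 := by
  obtain ⟨D, hD, hD'⟩ := h.D z
  refine hb (A z) (h.AT z) D hD hD' v ?_
  intro i hi
  have h1 := h.rule _ (mem_iter.mp hv i (by omega))
  have h2 : Θ ((Θ ^ i) v) = (Θ ^ (i + 1)) v := by
    rw [pow_succ']
    rfl
  rwa [h2] at h1

/-- two letters in one coset of `iter Θ W K` commute -/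
theorem Letters.comm_AA (h : Letters K Θ ζ g s φ L W p A) {b0 : ℕ}
    (hb : ∀ z, ∀ v ∈ iter Θ W K, nr (A z * L v + L v * A z) ≤ b0) {z z' : ι}
    (hz : p z + p z' ∈ iter Θ W K) : nr (A z * A z' + A z' * A z) ≤ K * K * b0 := by
  have two := h.lab.two
  -- `A z' ≈ A z + L d`
  have h1 : nr (A z' + (A z + L (p z + p z'))) ≤ K := by
    have := h.AA z z'
    have e : A z' + (A z + L (p z + p z')) = A z + A z' + L (p z + p z') := by abel
    rwa [e]
  have h2 : nr (A z * A z' + A z * (A z + L (p z + p z'))) ≤ K := by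
    rw [← mul_add]
    exact (nr_mul_left _ _).trans h1
  have h3 : nr (A z' * A z + (A z + L (p z + p z')) * A z) ≤ K := by
    rw [← add_mul]
    exact (nr_mul_right _ _).trans h1
  have h4 := hb z _ hz
  have e : A z * A z' + A z' * A z = ((A z * A z' + A z * (A z + L (p z + p z'))) +
      (A z' * A z + (A z + L (p z + p z')) * A z)) + (A z * L (p z + p z') + L (p z + p z') * A z) := by
    have e1 : ((A z * A z' + A z * (A z + L (p z + p z'))) +
      (A z' * A z + (A z + L (p z + p z')) * A z)) + (A z * L (p z + p z') + L (p z + p z') * A z) =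
      (A z * A z' + A z' * A z) + (A z * A z + A z * A z) +
        (A z * L (p z + p z') + A z * L (p z + p z')) + (L (p z + p z') * A z + L (p z + p z') * A z) := by
      rw [mul_add, add_mul]; abel
    rw [e1, Pool.Agent.MF.LemT.add_self two, Pool.Agent.MF.LemT.add_self two, Pool.Agent.MF.LemT.add_self two]
    simp
  rw [e]
  exact (nr_add _ _).trans (Nat.mul_le_mul ((nr_add _ _).trans (Nat.mul_le_mul h2 h3)) h4)

theorem Letters.L_zero (h : Letters K Θ ζ g s φ L W p A) : nr (L 0) ≤ K := by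
  have h1 := h.add 0 0
  rwa [add_zero, Pool.Agent.MF.LemT.add_self h.lab.two, add_zero] at h1

/-- the operator of a difference -/
theorem Letters.L_diff (h : Letters K Θ ζ g s φ L W p A) (z z' : ι) : nr (L (p z + p z') + (A z + A z')) ≤ K := by
  have := h.AA z z'
  rwa [add_comm] at this

/-- all operators of `W'` commute -/
theorem Letters.comm_LL (h : Letters K Θ ζ g s φ L W p A) {b0 : ℕ}
    (hb : ∀ z, ∀ v ∈ iter Θ W K, nr (A z * L v + L v * A z) ≤ b0) (P : Set ι)
    (hP : diffs p P ⊆ iter Θ W K) {m : ℕ} {u v : U} (hu : u ∈ Ball (diffs p P) m) (hv : v ∈ iter Θ W K) :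
    nr (L u * L v + L v * L u) ≤ (K * K * b0 * b0) ^ (2 * m + 1) := by
  have two := h.lab.two
  have hK : 1 ≤ K := h.lab.Kpos
  obtain ⟨l, hl, hlX, rfl⟩ := hu
  have hb0 : 1 ≤ b0 := by
    by_contra hcon
    push Not at hcon
    have hι : IsEmpty ι := by
      refine ⟨fun z => ?_⟩
      have h1 := hb z 0 (AddSubgroup.zero_mem _)
      have h2 := nr_pos (A z * L 0 + L 0 * A z)
      omega
    have h1 := h.dense
    rw [Set.range_eq_empty, Set.ncard_empty, mul_zero] at h1
    have h2 : 0 < Nat.card U := Nat.card_pos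
    omega
  have hc : K * K ≤ K * K * b0 * b0 := by nlinarith [Nat.mul_le_mul hb0 hb0]
  have key := list_bound (fun u => L u * L v + L v * L u) ⊤ (diffs p P) (fun _ _ => AddSubgroup.mem_top _)
    (c := K * K * b0 * b0) two ?_ ?_ ?_ l hlX
  · refine key.trans (Nat.pow_le_pow_right ?_ (by omega))
    exact le_trans (Nat.mul_le_mul hK hK) hc
  · refine le_trans ((nr_add _ _).trans (Nat.mul_le_mul ?_ ?_)) hc
    · exact (nr_mul_right _ _).trans h.L_zero
    · exact (nr_mul_left _ _).trans h.L_zero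
  · intro a _ b _
    have e : L (a + b) * L v + L v * L (a + b) + (L a * L v + L v * L a + (L b * L v + L v * L b)) =
        (L (a + b) + (L a + L b)) * L v + L v * (L (a + b) + (L a + L b)) := by
      rw [add_mul, add_mul, mul_add, mul_add]; abel
    show nr (L (a + b) * L v + L v * L (a + b) + (L a * L v + L v * L a + (L b * L v + L v * L b))) ≤ _
    rw [e]
    refine le_trans ((nr_add _ _).trans (Nat.mul_le_mul ?_ ?_)) hc
    · exact (nr_mul_right _ _).trans (h.add a b)
    · exact (nr_mul_left _ _).trans (h.add a b)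
  · rintro d ⟨z, hz, z', hz', rfl⟩
    show nr (L (p z + p z') * L v + L v * L (p z + p z')) ≤ _
    have e : L (p z + p z') * L v + L v * L (p z + p z') =
        (((L (p z + p z') + (A z + A z')) * L v) + (L v * (L (p z + p z') + (A z + A z')))) +
          ((A z * L v + L v * A z) + (A z' * L v + L v * A z')) := by
      have e1 : (((L (p z + p z') + (A z + A z')) * L v) + (L v * (L (p z + p z') + (A z + A z')))) +
          ((A z * L v + L v * A z) + (A z' * L v + L v * A z')) =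
          (L (p z + p z') * L v + L v * L (p z + p z')) + (A z * L v + A z * L v) + (A z' * L v + A z' * L v) +
          (L v * A z + L v * A z) + (L v * A z' + L v * A z') := by
        rw [add_mul, add_mul, mul_add, mul_add]; abel
      rw [e1, Pool.Agent.MF.LemT.add_self two, Pool.Agent.MF.LemT.add_self two,
        Pool.Agent.MF.LemT.add_self two, Pool.Agent.MF.LemT.add_self two]
      simp
    rw [e]
    refine (nr_add _ _).trans ?_
    refine le_trans (Nat.mul_le_mul ((nr_add _ _).trans (Nat.mul_le_mul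
      ((nr_mul_right _ _).trans (h.L_diff z z')) ((nr_mul_left _ _).trans (h.L_diff z z'))))
      ((nr_add _ _).trans (Nat.mul_le_mul (hb z v hv) (hb z' v hv)))) ?_
    apply le_of_eq
    ring

/-- `L (φ u) ≈ L u L u` on `W'` -/
theorem Letters.square (h : Letters K Θ ζ g s φ L W p A) {b0 b1 : ℕ} (hb1 : 1 ≤ b1) (hb0 : 1 ≤ b0)
    (hb : ∀ z, ∀ v ∈ iter Θ W K, nr (A z * L v + L v * A z) ≤ b0) (P : Set ι)
    (hP : diffs p P ⊆ iter Θ W K) (W' : AddSubgroup U) (hW' : diffs p P ⊆ W')
    (hc : ∀ u ∈ W', ∀ v ∈ W', nr (L u * L v + L v * L u) ≤ b1) {m : ℕ} {u : U} (hu : u ∈ Ball (diffs p P) m) :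
    nr (L (φ u) + L u * L u) ≤ (K ^ 5 * b0 * b1) ^ (2 * m + 1) := by
  have two := h.lab.two
  have hK : 1 ≤ K := h.lab.Kpos
  obtain ⟨l, hl, hlX, rfl⟩ := hu
  have hbig : 1 ≤ K ^ 5 * b0 * b1 := Nat.succ_le_of_lt (by positivity)
  have hbig1 : K ^ 5 * b0 ≤ K ^ 5 * b0 * b1 := Nat.le_mul_of_pos_right _ (by omega)
  have hbig2 : K ^ 5 * b1 ≤ K ^ 5 * b0 * b1 := by
    have : K ^ 5 * b0 * b1 = K ^ 5 * b1 * b0 := by ring
    rw [this]
    exact Nat.le_mul_of_pos_right _ (by omega)
  have hp : ∀ {i j : ℕ}, i ≤ j → K ^ i ≤ K ^ j := fun hij => Nat.pow_le_pow_right hK hij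
  have key := list_bound (fun u => L (φ u) + L u * L u) W' (diffs p P) hW'
    (c := K ^ 5 * b0 * b1) two ?_ ?_ ?_ l hlX
  · exact key.trans (Nat.pow_le_pow_right hbig (by omega))
  · show nr (L (φ 0) + L 0 * L 0) ≤ _
    rw [map_zero]
    refine le_trans ((nr_add _ _).trans (Nat.mul_le_mul h.L_zero ((nr_mul_right _ _).trans h.L_zero))) ?_
    refine le_trans ?_ hbig1
    refine le_trans ?_ (Nat.le_mul_of_pos_right _ (by omega))
    rw [← pow_two]
    exact hp (by omega)
  · intro a ha b hb'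
    show nr (L (φ (a + b)) + L (a + b) * L (a + b) + (L (φ a) + L a * L a + (L (φ b) + L b * L b))) ≤ _
    rw [map_add]
    have e : L (φ a + φ b) + L (a + b) * L (a + b) + (L (φ a) + L a * L a + (L (φ b) + L b * L b)) =
        (L (φ a + φ b) + (L (φ a) + L (φ b))) +
        ((L (a + b) * L (a + b) + (L a + L b) * (L a + L b)) + (L a * L b + L b * L a)) := by
      have e1 : (L (φ a + φ b) + (L (φ a) + L (φ b))) +
        ((L (a + b) * L (a + b) + (L a + L b) * (L a + L b)) + (L a * L b + L b * L a)) =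
        (L (φ a + φ b) + L (a + b) * L (a + b) + (L (φ a) + L a * L a + (L (φ b) + L b * L b))) +
          (L a * L b + L a * L b) + (L b * L a + L b * L a) := by
        rw [add_mul, mul_add, mul_add]; abel
      rw [e1, Pool.Agent.MF.LemT.add_self two, Pool.Agent.MF.LemT.add_self two]
      simp
    rw [e]
    refine (nr_add _ _).trans ?_
    refine le_trans (Nat.mul_le_mul (h.add _ _) ((nr_add _ _).trans (Nat.mul_le_mul
      (nr_mul_mul two (h.add a b) (h.add a b)) (hc a ha b hb')))) ?_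
    refine le_trans ?_ hbig2
    have e3 : K * (K * K * b1) = K ^ 3 * b1 := by ring
    rw [e3]
    exact Nat.mul_le_mul_right _ (hp (by omega))
  · rintro d ⟨z, hz, z', hz', rfl⟩
    show nr (L (φ (p z + p z')) + L (p z + p z') * L (p z + p z')) ≤ _
    have e : L (φ (p z + p z')) + L (p z + p z') * L (p z + p z') =
        (L (φ (p z + p z')) + (A z * A z + A z' * A z')) +
        ((L (p z + p z') * L (p z + p z') + (A z + A z') * (A z + A z')) + (A z * A z' + A z' * A z)) := by
      have e1 : (L (φ (p z + p z')) + (A z * A z + A z' * A z')) +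
        ((L (p z + p z') * L (p z + p z') + (A z + A z') * (A z + A z')) + (A z * A z' + A z' * A z)) =
        (L (φ (p z + p z')) + L (p z + p z') * L (p z + p z')) + (A z * A z + A z * A z) +
          (A z' * A z' + A z' * A z') + (A z * A z' + A z * A z') + (A z' * A z + A z' * A z) := by
        rw [add_mul, mul_add, mul_add]; abel
      rw [e1, Pool.Agent.MF.LemT.add_self two, Pool.Agent.MF.LemT.add_self two,
        Pool.Agent.MF.LemT.add_self two, Pool.Agent.MF.LemT.add_self two]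
      simp
    rw [e]
    have hzz : p z + p z' ∈ iter Θ W K := hP ⟨z, hz, z', hz', rfl⟩
    refine (nr_add _ _).trans ?_
    refine le_trans (Nat.mul_le_mul (h.sq z z') ((nr_add _ _).trans (Nat.mul_le_mul
      (nr_mul_mul two (h.L_diff z z') (h.L_diff z z')) (h.comm_AA hb hzz)))) ?_
    refine le_trans (le_of_eq ?_) hbig1
    ring

/-- **COMM and squares on a subgroup of bounded index.** -/
theorem comm_W (K : ℕ) : ∃ K' : ℕ, 1 ≤ K' ∧ ∀ (U : Type) [AddCommGroup U] [Finite U] (Θ ζ g s φ : AddMonoid.End U)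
    (L : U → AddMonoid.End U) (W : AddSubgroup U) (ι : Type) (p : ι → U) (A : ι → AddMonoid.End U),
    Letters K Θ ζ g s φ L W p A → ∃ (P : Set ι) (W' : AddSubgroup U),
      P.Nonempty ∧ W' = AddSubgroup.closure (diffs p P) ∧ W' ≤ iter Θ W K ∧ W' ≤ W ∧ W'.index ≤ K' ∧
      Nat.card U ≤ K' * (p '' P).ncard ∧
      (∀ u ∈ W', u ∈ Ball (diffs p P) K') ∧
      (∀ z, ∀ v ∈ W', nr (A z * L v + L v * A z) ≤ K') ∧
      (∀ z ∈ P, ∀ z' ∈ P, nr (A z * A z' + A z' * A z) ≤ K') ∧
      (∀ u ∈ W', ∀ v ∈ W', nr (L u * L v + L v * L u) ≤ K') ∧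
      (∀ u ∈ W', nr (L (φ u) + L u * L u) ≤ K') := by
  obtain ⟨b0', hb0'⟩ := comm_step K
  obtain ⟨b0, hb01, hb0⟩ : ∃ b0 : ℕ, 1 ≤ b0 ∧ b0' ≤ b0 := ⟨b0' + 1, by omega, by omega⟩
  obtain ⟨k, hk⟩ : ∃ k : ℕ, k = K ^ (K + 1) * K := ⟨_, rfl⟩
  obtain ⟨b1, hb1⟩ : ∃ b1 : ℕ, b1 = (K * K * b0 * b0) ^ (2 * (3 * k + 1) + 1) := ⟨_, rfl⟩
  obtain ⟨b2, hb2⟩ : ∃ b2 : ℕ, b2 = (K ^ 5 * b0 * b1) ^ (2 * (3 * k + 1) + 1) := ⟨_, rfl⟩
  refine ⟨k + (3 * k + 1) + b0 + K * K * b0 + b1 + b2, by omega, ?_⟩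
  intro U _ _ Θ ζ g s φ L W ι p A h
  have two := h.lab.two
  have hK : 1 ≤ K := h.lab.Kpos
  have hAL : ∀ z, ∀ v ∈ iter Θ W K, nr (A z * L v + L v * A z) ≤ b0 := fun z v hv =>
    (h.comm_AL (fun X h1 D h2 h3 v h4 => hb0' U Θ ζ g s h.lab h.kT L h.add X h1 D h2 h3 v h4) z hv).trans hb0
  obtain ⟨x, hx⟩ := popular_coset (iter Θ W K) (Set.range p)
  obtain ⟨P, hP⟩ : ∃ P : Set ι, P = {z | p z - x ∈ iter Θ W K} := ⟨_, rfl⟩
  have himg : p '' P = {v | v ∈ Set.range p ∧ v - x ∈ iter Θ W K} := by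
    ext v
    constructor
    · rintro ⟨z, hz, rfl⟩
      rw [hP] at hz
      exact ⟨⟨z, rfl⟩, hz⟩
    · rintro ⟨⟨z, rfl⟩, hz⟩
      refine ⟨z, ?_, rfl⟩
      rw [hP]
      exact hz
  have hdense : Nat.card U ≤ k * (p '' P).ncard := by
    rw [himg]
    calc Nat.card U ≤ K * (Set.range p).ncard := h.dense
      _ ≤ K * ((iter Θ W K).index * {v | v ∈ Set.range p ∧ v - x ∈ iter Θ W K}.ncard) := by gcongr
      _ ≤ K * (K ^ (K + 1) * {v | v ∈ Set.range p ∧ v - x ∈ iter Θ W K}.ncard) := by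
          gcongr
          exact index_iter_le Θ W K K h.W_index
      _ = k * {v | v ∈ Set.range p ∧ v - x ∈ iter Θ W K}.ncard := by rw [hk]; ring
  have hPne : P.Nonempty := by
    by_contra hcon
    rw [Set.not_nonempty_iff_eq_empty] at hcon
    rw [hcon, Set.image_empty, Set.ncard_empty, mul_zero] at hdense
    have : 0 < Nat.card U := Nat.card_pos
    omega
  obtain ⟨z0, hz0⟩ := hPne
  have h0 : (0 : U) ∈ diffs p P := zero_mem_diffs two p hz0
  have hdiff : diffs p P ⊆ iter Θ W K := by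
    rintro d ⟨z, hz, z', hz', rfl⟩
    rw [hP] at hz hz'
    have h1 := (iter Θ W K).sub_mem hz hz'
    have h2 : p z - x - (p z' - x) = p z + p z' := by
      have h3 : -(p z') = p z' := neg_eq_of_add_eq_zero_left (two _)
      calc p z - x - (p z' - x) = p z + -(p z') := by abel
        _ = p z + p z' := by rw [h3]
    rwa [h2] at h1
  have hcard : Nat.card U ≤ k * (diffs p P).ncard :=
    hdense.trans (Nat.mul_le_mul_left _ (card_diffs p P ⟨z0, hz0⟩))
  have hgen : ∀ u ∈ AddSubgroup.closure (diffs p P), u ∈ Ball (diffs p P) (3 * k + 1) :=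
    fun u hu => dense_gen two (diffs p P) h0 k hcard hu
  have hW'1 : AddSubgroup.closure (diffs p P) ≤ iter Θ W K := (AddSubgroup.closure_le _).mpr hdiff
  have hLL : ∀ u ∈ AddSubgroup.closure (diffs p P), ∀ v ∈ AddSubgroup.closure (diffs p P),
      nr (L u * L v + L v * L u) ≤ b1 := by
    intro u hu v hv
    rw [hb1]
    exact h.comm_LL hAL P hdiff (hgen u hu) (hW'1 hv)
  have hb11 : 1 ≤ b1 := by
    rw [hb1]
    exact Nat.succ_le_of_lt (by positivity)
  refine ⟨P, AddSubgroup.closure (diffs p P), ⟨z0, hz0⟩, rfl, hW'1, hW'1.trans (iter_le Θ W K), ?_, ?_, ?_, ?_, ?_, ?_, ?_⟩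
  · exact (index_closure_le (diffs p P) h0 k hcard).trans (by omega)
  · exact hdense.trans (Nat.mul_le_mul_right _ (by omega))
  · intro u hu
    exact Ball.mono' (by omega) (hgen u hu)
  · intro z v hv
    exact (hAL z v (hW'1 hv)).trans (by omega)
  · intro z hz z' hz'
    exact (h.comm_AA hAL (hdiff ⟨z, hz, z', hz', rfl⟩)).trans (by omega)
  · intro u hu v hv
    exact (hLL u hu v hv).trans (by omega)
  · intro u hu
    refine le_trans (h.square hb11 hb01 hAL P hdiff _ AddSubgroup.subset_closure hLL (hgen u hu)) ?_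
    rw [← hb2]
    omega

end Helper34MF
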