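import Mathlib
import Pool.Agent.helper34.MF.CommW

set_option autoImplicit false

/-!
# MP_141f81, Section 9: products with values in `W'`, and rules from letters to `W'`
-/

namespace Helper34MF

open Pool.Agent.MF.LemT
open Pool.Agent.helper35.MF (Ball)

variable {U : Type} [AddCommGroup U] [Finite U]

/-- products of a word of differences with `L v` -/
theorem dom_list (two : ∀ u : U, u + u = 0) {K : ℕ} (L : U → AddMonoid.End U) {ι : Type} (p : ι → U)
    (A : ι → AddMonoid.End U) (add : ∀ u v, nr (L (u + v) + (L u + L v)) ≤ K)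
    (AA : ∀ z z', nr (A z + A z' + L (p z + p z')) ≤ K) (P : Set ι)
    (F : ∀ z ∈ P, ∃ (D : AddSubgroup U) (f : AddMonoid.End U), D.index ≤ K ∧ ∀ v ∈ D, nr (A z * L v + L (f v)) ≤ K) :
    ∀ l : List U, (∀ x ∈ l, x ∈ diffs p P) → ∃ (D : AddSubgroup U) (f : AddMonoid.End U),
      D.index ≤ K ^ (2 * l.length) ∧ ∀ v ∈ D, nr (L l.sum * L v + L (f v)) ≤ K ^ (6 * l.length + 2) := by
  intro l
  induction l with
  | nil =>
    intro _
    have h0 : nr (L 0) ≤ K := by
      have h1 := add 0 0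
      rwa [add_zero, Pool.Agent.MF.LemT.add_self two, add_zero] at h1
    refine ⟨⊤, 0, ?_, ?_⟩
    · simp
    · intro v _
      show nr (L 0 * L v + L 0) ≤ _
      refine ((nr_add _ _).trans (Nat.mul_le_mul ((nr_mul_right _ _).trans h0) h0)).trans ?_
      simp [pow_two]
  | cons d l ih =>
    intro h
    obtain ⟨D, f, hD, hf⟩ := ih (fun x hx => h x (by simp [hx]))
    obtain ⟨z, hz, z', hz', rfl⟩ := h d (by simp)
    obtain ⟨D1, f1, hD1, hf1⟩ := F z hz
    obtain ⟨D2, f2, hD2, hf2⟩ := F z' hz'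
    refine ⟨D1 ⊓ D2 ⊓ D, f1 + f2 + f, ?_, ?_⟩
    · refine (AddSubgroup.index_inf_le).trans ?_
      refine (Nat.mul_le_mul ((AddSubgroup.index_inf_le).trans (Nat.mul_le_mul hD1 hD2)) hD).trans ?_
      apply le_of_eq
      rw [List.length_cons]
      ring
    · rintro v ⟨⟨hv1, hv2⟩, hv⟩
      have e1 := hf1 v hv1
      have e2 := hf2 v hv2
      have e3 := hf v hv
      have e4 := add (p z + p z') l.sum
      have e5 := AA z z'
      have e6 := add (f1 v + f2 v) (f v)
      have e7 := add (f1 v) (f2 v)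
      have key : L ((p z + p z') :: l).sum * L v + L ((f1 + f2 + f) v) =
          (L (p z + p z' + l.sum) + (L (p z + p z') + L l.sum)) * L v +
          (A z + A z' + L (p z + p z')) * L v +
          (A z * L v + L (f1 v)) + (A z' * L v + L (f2 v)) + (L l.sum * L v + L (f v)) +
          (L (f1 v + f2 v + f v) + (L (f1 v + f2 v) + L (f v))) +
          (L (f1 v + f2 v) + (L (f1 v) + L (f2 v))) := by
        have k1 : (L (p z + p z' + l.sum) + (L (p z + p z') + L l.sum)) * L v +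
          (A z + A z' + L (p z + p z')) * L v +
          (A z * L v + L (f1 v)) + (A z' * L v + L (f2 v)) + (L l.sum * L v + L (f v)) +
          (L (f1 v + f2 v + f v) + (L (f1 v + f2 v) + L (f v))) +
          (L (f1 v + f2 v) + (L (f1 v) + L (f2 v))) =
          L (p z + p z' + l.sum) * L v + L (f1 v + f2 v + f v) +
          (L (p z + p z') * L v + L (p z + p z') * L v) + (L l.sum * L v + L l.sum * L v) +
          (A z * L v + A z * L v) + (A z' * L v + A z' * L v) + (L (f1 v) + L (f1 v)) + (L (f2 v) + L (f2 v)) +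
          (L (f v) + L (f v)) + (L (f1 v + f2 v) + L (f1 v + f2 v)) := by
          simp only [add_mul]
          abel
        rw [k1]
        simp only [Pool.Agent.MF.LemT.add_self two, add_zero, List.sum_cons]
        rfl
      rw [key]
      have hlen : ((p z + p z') :: l).length = l.length + 1 := rfl
      rw [hlen]
      have hfin : K * K * K * K * K ^ (6 * l.length + 2) * K * K = K ^ (6 * (l.length + 1) + 2) := by ring
      rw [← hfin]
      refine (nr_add _ _).trans (Nat.mul_le_mul ?_ e7)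
      refine (nr_add _ _).trans (Nat.mul_le_mul ?_ e6)
      refine (nr_add _ _).trans (Nat.mul_le_mul ?_ e3)
      refine (nr_add _ _).trans (Nat.mul_le_mul ?_ e2)
      refine (nr_add _ _).trans (Nat.mul_le_mul ?_ e1)
      refine (nr_add _ _).trans (Nat.mul_le_mul ?_ ?_)
      · exact (nr_mul_right _ _).trans e4
      · exact (nr_mul_right _ _).trans e5

/-- **Products on `W'` with values in `W'`.** -/
theorem dom_W (K : ℕ) : ∃ K'' : ℕ, ∀ (U : Type) [AddCommGroup U] [Finite U], (∀ u : U, u + u = 0) →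
    ∀ (L : U → AddMonoid.End U) (ι : Type) (p : ι → U) (A : ι → AddMonoid.End U) (P : Set ι) (W' : AddSubgroup U),
    (∀ u v, nr (L (u + v) + (L u + L v)) ≤ K) → (∀ z z', nr (A z + A z' + L (p z + p z')) ≤ K) →
    W'.index ≤ K → (∀ u ∈ W', u ∈ Ball (diffs p P) K) →
    (∀ z ∈ P, ∃ (D : AddSubgroup U) (f : AddMonoid.End U), D.index ≤ K ∧ ∀ v ∈ D, nr (A z * L v + L (f v)) ≤ K) →
    ∀ u ∈ W', ∃ D : AddSubgroup U, D ≤ W' ∧ D.index ≤ K'' ∧
      ∃ f : AddMonoid.End U, ∀ v ∈ D, f v ∈ W' ∧ nr (L u * L v + L (f v)) ≤ K'' := by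
  refine ⟨K ^ (2 * K) * K * K + K ^ (6 * K + 2), ?_⟩
  intro U _ _ two L ι p A P W' add AA hW' hgen F u hu
  have hK : 1 ≤ K := (nr_pos _).trans_le (add 0 0)
  obtain ⟨l, hl, hlX, rfl⟩ := hgen u hu
  obtain ⟨D, f, hD, hf⟩ := dom_list two L p A add AA P F l hlX
  refine ⟨D ⊓ W' ⊓ W'.comap f, ?_, ?_, f, ?_⟩
  · rintro v ⟨⟨-, hv⟩, -⟩
    exact hv
  · refine le_trans ((AddSubgroup.index_inf_le).trans (Nat.mul_le_mul
      ((AddSubgroup.index_inf_le).trans (Nat.mul_le_mul (hD.trans (Nat.pow_le_pow_right hK (by omega))) hW'))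
      ((index_comap_le f W').trans hW'))) (Nat.le_add_right _ _)
  · rintro v ⟨⟨hv, -⟩, hvf⟩
    refine ⟨hvf, (hf v hv).trans (le_trans (Nat.pow_le_pow_right hK ?_) (Nat.le_add_left _ _))⟩
    omega

/-- **Rules from differences of letters to `W'`.** -/
theorem rule_W (K : ℕ) : ∃ K'' : ℕ, ∀ (U : Type) [AddCommGroup U] [Finite U], (∀ u : U, u + u = 0) →
    ∀ (f : U → AddMonoid.End U) (ι : Type) (p : ι → U) (P : Set ι) (W' : AddSubgroup U),
    diffs p P ⊆ W' → (∀ u ∈ W', u ∈ Ball (diffs p P) K) → nr (f 0) ≤ K →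
    (∀ u ∈ W', ∀ v ∈ W', nr (f (u + v) + (f u + f v)) ≤ K) →
    (∀ z ∈ P, ∀ z' ∈ P, nr (f (p z + p z')) ≤ K) → ∀ u ∈ W', nr (f u) ≤ K'' := by
  refine ⟨K ^ (2 * K + 1), ?_⟩
  intro U _ _ two f ι p P W' hP hgen h0 hadd hd u hu
  have hK : 1 ≤ K := (nr_pos _).trans_le h0
  obtain ⟨l, hl, hlX, rfl⟩ := hgen u hu
  refine (list_bound f W' (diffs p P) hP two h0 hadd ?_ l hlX).trans (Nat.pow_le_pow_right hK (by omega))
  rintro d ⟨z, hz, z', hz', rfl⟩
  exact hd z hz z' hz'

end Helper34MF
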