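import Mathlib

set_option autoImplicit false

/-!
# MP_141f81, Section 9: additive correspondences of bounded multiplicity are additive maps

`H ≤ U × W` (exponent two, `U`, `W` finite).  There is an additive map `f : U → W` with `(x, f x) ∈ H` for all `x` in
the first projection `D` of `H`; the indeterminacy `{y | (0, y) ∈ H}` and the kernel of `f` on `D` are bounded.
-/

namespace Helper34MF

open Finset

variable {U W : Type*} [AddCommGroup U] [AddCommGroup W]

/-- first projection of a correspondence -/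
def pr1 (H : AddSubgroup (U × W)) : AddSubgroup U := H.map (AddMonoidHom.fst U W)

/-- second projection of a correspondence -/
def pr2 (H : AddSubgroup (U × W)) : AddSubgroup W := H.map (AddMonoidHom.snd U W)

theorem mem_pr1 {H : AddSubgroup (U × W)} {x : U} : x ∈ pr1 H ↔ ∃ y, (x, y) ∈ H := by
  constructor
  · rintro ⟨⟨a, b⟩, h, rfl⟩
    exact ⟨b, h⟩
  · rintro ⟨y, h⟩
    exact ⟨(x, y), h, rfl⟩

theorem mem_pr2 {H : AddSubgroup (U × W)} {y : W} : y ∈ pr2 H ↔ ∃ x, (x, y) ∈ H := by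
  constructor
  · rintro ⟨⟨a, b⟩, h, rfl⟩
    exact ⟨a, h⟩
  · rintro ⟨x, h⟩
    exact ⟨(x, y), h, rfl⟩

/-- the inverse correspondence -/
def swp (H : AddSubgroup (U × W)) : AddSubgroup (W × U) where
  carrier := {p | (p.2, p.1) ∈ H}
  zero_mem' := H.zero_mem
  add_mem' := fun {a b} ha hb => by
    have := H.add_mem ha hb
    simpa using this
  neg_mem' := fun {a} ha => by
    have := H.neg_mem ha
    simpa using this

theorem mem_swp {H : AddSubgroup (U × W)} {x : U} {y : W} : (y, x) ∈ swp H ↔ (x, y) ∈ H := Iff.rfl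

theorem pr1_swp (H : AddSubgroup (U × W)) : pr1 (swp H) = pr2 H := by
  ext y
  rw [mem_pr1, mem_pr2]
  rfl

theorem card_swp (H : AddSubgroup (U × W)) : Nat.card (swp H) = Nat.card H := by
  refine Nat.card_congr
    { toFun := fun p => ⟨(p.1.2, p.1.1), p.2⟩
      invFun := fun p => ⟨(p.1.2, p.1.1), p.2⟩
      left_inv := fun _ => rfl
      right_inv := fun _ => rfl }

/-- `|H| = |pr1 H| * |indeterminacy|` -/
theorem card_eq (H : AddSubgroup (U × W)) :
    Nat.card H = Nat.card (pr1 H) * {y : W | ((0 : U), y) ∈ H}.ncard := by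
  let φ : H →+ U := (AddMonoidHom.fst U W).comp H.subtype
  have h1 : Nat.card H = Nat.card φ.range * Nat.card φ.ker := by
    rw [AddSubgroup.card_eq_card_quotient_mul_card_addSubgroup φ.ker]
    congr 1
    exact Nat.card_congr (QuotientAddGroup.quotientKerEquivRange φ).toEquiv
  have h2 : φ.range = pr1 H := by
    ext x
    rw [mem_pr1]
    constructor
    · rintro ⟨⟨⟨a, b⟩, h⟩, rfl⟩
      exact ⟨b, h⟩
    · rintro ⟨y, h⟩
      exact ⟨⟨(x, y), h⟩, rfl⟩
  have h3 : Nat.card φ.ker = {y : W | ((0 : U), y) ∈ H}.ncard := by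
    rw [← Nat.card_coe_set_eq]
    refine Nat.card_congr
      { toFun := fun p => ⟨p.1.1.2, ?_⟩
        invFun := fun p => ⟨⟨((0 : U), p.1), p.2⟩, ?_⟩
        left_inv := ?_
        right_inv := ?_ }
    · have h4 : p.1.1.1 = 0 := p.2
      have h5 := p.1.2
      have h6 : p.1.1 = (0, p.1.1.2) := Prod.ext h4 rfl
      rw [h6] at h5
      exact h5
    · show (0 : U) = 0
      rfl
    · rintro ⟨⟨⟨a, b⟩, h⟩, h'⟩
      have h4 : a = 0 := h'
      subst h4
      rfl
    · rintro ⟨y, h⟩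
      rfl
  rw [h1, h2, h3]

/-- the indeterminacy is bounded -/
theorem indet_le [Finite U] [Finite W] (H : AddSubgroup (U × W)) (K k1 : ℕ)
    (hH : Nat.card H ≤ K * Nat.card U) (h1 : (pr1 H).index ≤ k1) :
    {y : W | ((0 : U), y) ∈ H}.ncard ≤ K * k1 := by
  have hc := card_eq H
  have hi : Nat.card (pr1 H) * (pr1 H).index = Nat.card U := AddSubgroup.card_mul_index _
  have hpos : 0 < Nat.card (pr1 H) := Nat.card_pos
  have h3 : Nat.card (pr1 H) * {y : W | ((0 : U), y) ∈ H}.ncard ≤ Nat.card (pr1 H) * (K * k1) := by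
    rw [← hc]
    calc Nat.card H ≤ K * Nat.card U := hH
      _ = K * (Nat.card (pr1 H) * (pr1 H).index) := by rw [hi]
      _ ≤ K * (Nat.card (pr1 H) * k1) := by gcongr
      _ = Nat.card (pr1 H) * (K * k1) := by ring
  exact Nat.le_of_mul_le_mul_left h3 hpos

/-- the section of a correspondence -/
theorem exists_map (two : ∀ u : U, u + u = 0) (two' : ∀ w : W, w + w = 0) (H : AddSubgroup (U × W)) :
    ∃ f : U →+ W, ∀ x ∈ pr1 H, (x, f x) ∈ H := by
  let _ : Module (ZMod 2) U := AddCommGroup.zmodModule (fun x => by rw [two_nsmul]; exact two x)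
  let _ : Module (ZMod 2) W := AddCommGroup.zmodModule (fun x => by rw [two_nsmul]; exact two' x)
  let H' : Submodule (ZMod 2) (U × W) := AddSubgroup.toZModSubmodule 2 H
  have hmem : ∀ p, p ∈ H' ↔ p ∈ H := fun p => Iff.rfl
  let D' : Submodule (ZMod 2) U := H'.map (LinearMap.fst (ZMod 2) U W)
  let φ : H' →ₗ[ZMod 2] D' := ((LinearMap.fst (ZMod 2) U W).comp H'.subtype).codRestrict D'
    (fun p => ⟨p.1, p.2, rfl⟩)
  have hφ : Function.Surjective φ := by
    rintro ⟨x, ⟨p, hp, rfl⟩⟩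
    exact ⟨⟨p, hp⟩, rfl⟩
  obtain ⟨s, hs⟩ := φ.exists_rightInverse_of_surjective (LinearMap.range_eq_top.mpr hφ)
  obtain ⟨f, hf⟩ := LinearMap.exists_extend
    (((LinearMap.snd (ZMod 2) U W).comp H'.subtype).comp s)
  refine ⟨f.toAddMonoidHom, ?_⟩
  intro x hx
  obtain ⟨y, hy⟩ := mem_pr1.mp hx
  have hxD : x ∈ D' := ⟨(x, y), hy, rfl⟩
  have h1 : f x = (s ⟨x, hxD⟩).1.2 := by
    have := LinearMap.congr_fun hf ⟨x, hxD⟩
    exact this
  have h2 : (s ⟨x, hxD⟩).1.1 = x := by
    have := LinearMap.congr_fun hs ⟨x, hxD⟩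
    exact congrArg Subtype.val this
  have h3 : (s ⟨x, hxD⟩).1 ∈ H := (s ⟨x, hxD⟩).2
  have h4 : (s ⟨x, hxD⟩).1 = (x, f x) := Prod.ext h2 h1.symm
  rw [h4] at h3
  exact h3

/-- **Additive correspondences are additive maps with bounded kernel and bounded indeterminacy.** -/
theorem corr [Finite U] [Finite W] (two : ∀ u : U, u + u = 0) (two' : ∀ w : W, w + w = 0)
    (H : AddSubgroup (U × W)) (K k1 k2 : ℕ) (hH : Nat.card H ≤ K * Nat.card U)
    (hH' : Nat.card H ≤ K * Nat.card W) (h1 : (pr1 H).index ≤ k1) (h2 : (pr2 H).index ≤ k2) :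
    ∃ f : U →+ W, (∀ x ∈ pr1 H, (x, f x) ∈ H) ∧
      (∀ x y, (x, y) ∈ H → ((0 : U), y - f x) ∈ H) ∧
      {y : W | ((0 : U), y) ∈ H}.ncard ≤ K * k1 ∧
      {x : U | x ∈ pr1 H ∧ f x = 0}.ncard ≤ K * k2 := by
  obtain ⟨f, hf⟩ := exists_map two two' H
  refine ⟨f, hf, ?_, indet_le H K k1 hH h1, ?_⟩
  · intro x y hxy
    have h3 := H.sub_mem hxy (hf x (mem_pr1.mpr ⟨y, hxy⟩))
    simpa using h3
  · have h4 := indet_le (swp H) K k2 (by rw [card_swp]; exact hH') (by rw [pr1_swp]; exact h2)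
    refine le_trans (Set.ncard_le_ncard ?_ (Set.toFinite _)) h4
    rintro x ⟨hx, hx0⟩
    have h5 := hf x hx
    rw [hx0] at h5
    exact h5

end Helper34MF
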