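import Mathlib
import Pool.Agent.helper34.MF.Corr
import Pool.Agent.helper35.MF.Conn

set_option autoImplicit false

/-!
# MP_141f81, Section 9: the relation calculus

`Sim C f g`: the additive maps `f`, `g` differ by a map with at most `C` values.  Sections of correspondences with
bounded indeterminacy satisfy the relations of the correspondences up to `Sim`.  Operators of letters are extended to
words; if short words of value zero are sums of boundedly many lines, they are functions of the value up to `Sim`.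
-/

namespace Helper34MF

open Finset Pointwise
open Pool.Agent.helper35.MF (Ball sy)

variable {U W V : Type*} [AddCommGroup U] [AddCommGroup W] [AddCommGroup V]

/-! ### cardinalities -/

/-- `|ker f| |range f| = |U|` -/
theorem card_ker_range (f : U →+ W) : Nat.card f.ker * Nat.card f.range = Nat.card U := by
  rw [AddSubgroup.card_eq_card_quotient_mul_card_addSubgroup f.ker, mul_comm]
  congr 1
  exact (Nat.card_congr (QuotientAddGroup.quotientKerEquivRange f).toEquiv).symm

/-- `|ker f| |range f| = |U|`, for a map restricted to `D` -/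
theorem card_inf_map (D : AddSubgroup U) (f : U →+ W) :
    Nat.card (f.ker ⊓ D : AddSubgroup U) * Nat.card (D.map f) = Nat.card D := by
  rw [← card_ker_range (f.comp D.subtype)]
  congr 1
  · refine Nat.card_congr
      { toFun := fun p => ⟨⟨p.1, p.2.2⟩, p.2.1⟩
        invFun := fun p => ⟨p.1.1, p.2, p.1.2⟩
        left_inv := fun _ => rfl
        right_inv := fun _ => rfl }
  · congr 1
    congr 1
    ext y
    constructor
    · rintro ⟨x, hx, rfl⟩
      exact ⟨⟨x, hx⟩, rfl⟩
    · rintro ⟨⟨x, hx⟩, rfl⟩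
      exact ⟨x, hx, rfl⟩

/-- the range of `f` is at most `index D` times the image of `D` -/
theorem card_range_le_index [Finite U] (D : AddSubgroup U) (f : U →+ W) :
    Nat.card f.range ≤ D.index * Nat.card (D.map f) := by
  have h1 := card_ker_range f
  have h2 := card_inf_map D f
  have h3 := AddSubgroup.card_mul_index D
  have hpos : 0 < Nat.card (f.ker ⊓ D : AddSubgroup U) := Nat.card_pos
  have h4 : Nat.card (f.ker ⊓ D : AddSubgroup U) ≤ Nat.card f.ker :=
    Nat.card_le_card_of_injective (fun p => (⟨p.1, p.2.1⟩ : f.ker)) (fun a b h => by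
      have := congrArg (fun q : f.ker => q.1) h
      exact Subtype.ext this)
  have h5 : Nat.card (f.ker ⊓ D : AddSubgroup U) * Nat.card f.range ≤
      Nat.card (f.ker ⊓ D : AddSubgroup U) * (D.index * Nat.card (D.map f)) := by
    calc Nat.card (f.ker ⊓ D : AddSubgroup U) * Nat.card f.range
        ≤ Nat.card f.ker * Nat.card f.range := by gcongr
      _ = Nat.card D * D.index := by rw [h1, h3]
      _ = Nat.card (f.ker ⊓ D : AddSubgroup U) * (D.index * Nat.card (D.map f)) := by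
          rw [← h2]; ring
  exact Nat.le_of_mul_le_mul_left h5 hpos

/-- a map whose values on a subgroup of index at most `k` lie in a set of at most `m` elements has at most `k m`
values -/
theorem card_range_le [Finite U] (D : AddSubgroup U) (f : U →+ W) (k m : ℕ) (hk : D.index ≤ k) (S : Set W)
    (hS : S.Finite) (hm : S.ncard ≤ m) (h : ∀ x ∈ D, f x ∈ S) : Nat.card f.range ≤ k * m := by
  refine (card_range_le_index D f).trans (Nat.mul_le_mul hk ?_)
  refine le_trans ?_ hm
  rw [← SetLike.coe_sort_coe, Nat.card_coe_set_eq]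
  refine Set.ncard_le_ncard ?_ hS
  rintro y ⟨x, hx, rfl⟩
  exact h x hx

theorem card_range_add_le [Finite W] (f g : U →+ W) :
    Nat.card (f + g).range ≤ Nat.card f.range * Nat.card g.range := by
  have h1 := Set.natCard_add_le (s := (f.range : Set W)) (t := (g.range : Set W))
  refine le_trans ?_ h1
  refine Nat.card_mono (Set.toFinite _) ?_
  rintro y ⟨x, rfl⟩
  exact Set.add_mem_add ⟨x, rfl⟩ ⟨x, rfl⟩

theorem card_range_comp_left [Finite W] (k : W →+ V) (f : U →+ W) :
    Nat.card (k.comp f).range ≤ Nat.card f.range := by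
  refine Nat.card_le_card_of_surjective
    (fun y : f.range => (⟨k y.1, by obtain ⟨x, hx⟩ := y.2; exact ⟨x, by rw [← hx]; rfl⟩⟩ : (k.comp f).range)) ?_
  rintro ⟨y, x, rfl⟩
  exact ⟨⟨f x, x, rfl⟩, rfl⟩

theorem card_range_comp_right [Finite V] (f : W →+ V) (k : U →+ W) :
    Nat.card (f.comp k).range ≤ Nat.card f.range := by
  refine Nat.card_mono (Set.toFinite _) ?_
  rintro y ⟨x, rfl⟩
  exact ⟨k x, rfl⟩

/-! ### R1: the relation -/

/-- `f ~ g`: the maps differ by a map with at most `C` values -/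
def Sim (C : ℕ) (f g : U →+ W) : Prop := Nat.card (f + g).range ≤ C

theorem Sim.mono {C C' : ℕ} (h : C ≤ C') {f g : U →+ W} (hf : Sim C f g) : Sim C' f g := le_trans hf h

theorem map_two (two : ∀ w : W, w + w = 0) (f : U →+ W) : f + f = 0 := by
  ext x
  exact two (f x)

theorem Sim.refl (two : ∀ w : W, w + w = 0) {C : ℕ} (hC : 1 ≤ C) (f : U →+ W) : Sim C f f := by
  unfold Sim
  rw [map_two two]
  refine le_trans (le_of_eq ?_) hC
  rw [AddMonoidHom.range_zero]
  exact AddSubgroup.card_bot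

theorem Sim.symm {C : ℕ} {f g : U →+ W} (h : Sim C f g) : Sim C g f := by
  unfold Sim at h ⊢
  rwa [add_comm]

theorem Sim.trans [Finite W] (two : ∀ w : W, w + w = 0) {C C' : ℕ} {f g h : U →+ W} (h1 : Sim C f g)
    (h2 : Sim C' g h) : Sim (C * C') f h := by
  have e : f + h = (f + g) + (g + h) := by
    calc f + h = f + 0 + h := by rw [add_zero]
      _ = f + (g + g) + h := by rw [map_two two]
      _ = (f + g) + (g + h) := by abel
  unfold Sim
  rw [e]
  exact (card_range_add_le _ _).trans (Nat.mul_le_mul h1 h2)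

theorem Sim.add [Finite W] {C C' : ℕ} {f g f' g' : U →+ W} (h1 : Sim C f g) (h2 : Sim C' f' g') :
    Sim (C * C') (f + f') (g + g') := by
  have e : (f + f') + (g + g') = (f + g) + (f' + g') := by abel
  unfold Sim
  rw [e]
  exact (card_range_add_le _ _).trans (Nat.mul_le_mul h1 h2)

theorem Sim.comp_left [Finite W] {C : ℕ} {f g : U →+ W} (k : W →+ V) (h : Sim C f g) :
    Sim C (k.comp f) (k.comp g) := by
  unfold Sim
  rw [← AddMonoidHom.comp_add]
  exact (card_range_comp_left k (f + g)).trans h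

theorem Sim.comp_right [Finite V] {C : ℕ} {f g : W →+ V} (k : U →+ W) (h : Sim C f g) :
    Sim C (f.comp k) (g.comp k) := by
  unfold Sim
  rw [← AddMonoidHom.add_comp]
  exact (card_range_comp_right (f + g) k).trans h

theorem Sim.comp [Finite W] [Finite V] (two : ∀ v : V, v + v = 0) {C C' : ℕ} {f g : U →+ W} {f' g' : W →+ V}
    (h : Sim C f g) (h' : Sim C' f' g') : Sim (C * C') (f'.comp f) (g'.comp g) :=
  (h.comp_left f').trans two (h'.comp_right g)

/-- three terms: `f + g + h ~ 0` is `f ~ g + h` -/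
theorem sim_iff_three {C : ℕ} {f g h : U →+ W} : Nat.card (f + g + h).range ≤ C ↔ Sim C f (g + h) := by
  unfold Sim
  rw [add_assoc]

theorem Sim.exists_const {C : ℕ} {f g : U →+ W} (h : Sim C f g) :
    ∃ K : AddSubgroup U, K.index ≤ C ∧ ∀ x ∈ K, (f + g) x = 0 := by
  refine ⟨(f + g).ker, ?_, fun x hx => hx⟩
  rw [AddSubgroup.index_ker]
  exact h

/-! ### R2: sections of correspondences -/

/-- `A` is a section of `H` over its first projection, the indeterminacy of `H` is at most `k` -/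
structure Sec (H : AddSubgroup (U × W)) (A : U →+ W) (k : ℕ) : Prop where
  mem : ∀ x ∈ pr1 H, (x, A x) ∈ H
  le : {y : W | ((0 : U), y) ∈ H}.ncard ≤ k

/-- the indeterminacy of `H` -/
def ind (H : AddSubgroup (U × W)) : Set W := {y : W | ((0 : U), y) ∈ H}

theorem Sec.diff {H : AddSubgroup (U × W)} {A : U →+ W} {k : ℕ} (s : Sec H A k) {x : U} {y : W}
    (h : (x, y) ∈ H) : A x - y ∈ ind H := by
  have h1 := H.sub_mem (s.mem x (mem_pr1.mpr ⟨y, h⟩)) h
  simpa [ind] using h1

/-- the difference, written as `A x = y + i` -/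
theorem Sec.split {H : AddSubgroup (U × W)} {A : U →+ W} {k : ℕ} (s : Sec H A k) {x : U} {y : W}
    (h : (x, y) ∈ H) : ∃ i ∈ ind H, A x = y + i := ⟨A x - y, s.diff h, by abel⟩

theorem Sec.exists_of_corr [Finite U] [Finite W] (two : ∀ u : U, u + u = 0) (two' : ∀ w : W, w + w = 0)
    (H : AddSubgroup (U × W)) (K k1 : ℕ) (hH : Nat.card H ≤ K * Nat.card U) (h1 : (pr1 H).index ≤ k1) :
    ∃ f : U →+ W, Sec H f (K * k1) := by
  obtain ⟨f, hf⟩ := exists_map two two' H
  exact ⟨f, hf, indet_le H K k1 hH h1⟩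

theorem sim_of_domain [Finite U] (D : AddSubgroup U) (f g : U →+ W) (k m : ℕ) (hk : D.index ≤ k) (S : Set W)
    (hS : S.Finite) (hm : S.ncard ≤ m) (h : ∀ x ∈ D, f x + g x ∈ S) : Sim (k * m) f g :=
  card_range_le D (f + g) k m hk S hS hm h

theorem ncard_add_le3 [Finite W] (S1 S2 S3 : Set W) :
    (S1 + S2 + S3).ncard ≤ S1.ncard * S2.ncard * S3.ncard := by
  have h1 := Set.natCard_add_le (s := S1 + S2) (t := S3)
  have h2 := Set.natCard_add_le (s := S1) (t := S2)
  rw [Nat.card_coe_set_eq, Nat.card_coe_set_eq, Nat.card_coe_set_eq] at h1 h2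
  exact h1.trans (Nat.mul_le_mul_right _ h2)

/-- **Two sections of the same correspondence** (or of `H1 ≤ H2` over `D`). -/
theorem sim_of_same [Finite U] [Finite W] (two : ∀ w : W, w + w = 0) (D : AddSubgroup U) (k k1 k2 : ℕ)
    (hk : D.index ≤ k) {H1 H2 : AddSubgroup (U × W)} {A1 A2 : U →+ W} (s1 : Sec H1 A1 k1) (s2 : Sec H2 A2 k2)
    (h : ∀ x ∈ D, ∃ y, (x, y) ∈ H1 ∧ (x, y) ∈ H2) : Sim (k * (k1 * k2)) A1 A2 := by
  refine sim_of_domain D A1 A2 k _ hk (ind H1 + ind H2) (Set.toFinite _) ?_ ?_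
  · have h2 := Set.natCard_add_le (s := ind H1) (t := ind H2)
    rw [Nat.card_coe_set_eq, Nat.card_coe_set_eq, Nat.card_coe_set_eq] at h2
    exact h2.trans (Nat.mul_le_mul s1.le s2.le)
  · intro x hx
    obtain ⟨y, h1, h2⟩ := h x hx
    obtain ⟨i1, hi1, e1⟩ := s1.split h1
    obtain ⟨i2, hi2, e2⟩ := s2.split h2
    rw [e1, e2]
    have e : y + i1 + (y + i2) = (y + y) + (i1 + i2) := by abel
    rw [e, two, zero_add]
    exact Set.add_mem_add hi1 hi2

/-- **Three correspondences adding up to zero over `D`**: `A1 + A2 + A3 ~ 0`. -/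
theorem sim_of_three [Finite U] [Finite W] (D : AddSubgroup U) (k k1 k2 k3 : ℕ) (hk : D.index ≤ k)
    {H1 H2 H3 : AddSubgroup (U × W)} {A1 A2 A3 : U →+ W} (s1 : Sec H1 A1 k1) (s2 : Sec H2 A2 k2)
    (s3 : Sec H3 A3 k3)
    (h : ∀ x ∈ D, ∃ y1 y2 y3, (x, y1) ∈ H1 ∧ (x, y2) ∈ H2 ∧ (x, y3) ∈ H3 ∧ y1 + y2 + y3 = 0) :
    Nat.card (A1 + A2 + A3).range ≤ k * (k1 * k2 * k3) := by
  refine card_range_le D (A1 + A2 + A3) k _ hk (ind H1 + ind H2 + ind H3) (Set.toFinite _) ?_ ?_
  · exact (ncard_add_le3 _ _ _).trans (Nat.mul_le_mul (Nat.mul_le_mul s1.le s2.le) s3.le)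
  · intro x hx
    obtain ⟨y1, y2, y3, h1, h2, h3, h0⟩ := h x hx
    obtain ⟨i1, hi1, e1⟩ := s1.split h1
    obtain ⟨i2, hi2, e2⟩ := s2.split h2
    obtain ⟨i3, hi3, e3⟩ := s3.split h3
    show A1 x + A2 x + A3 x ∈ _
    rw [e1, e2, e3]
    have e : y1 + i1 + (y2 + i2) + (y3 + i3) = (y1 + y2 + y3) + (i1 + i2 + i3) := by abel
    rw [e, h0, zero_add]
    exact Set.add_mem_add (Set.add_mem_add hi1 hi2) hi3

/-- **Composition**: `(x, y) ∈ H1`, `(y, z) ∈ H2`, `(x, z) ∈ H3` over `D`: `A2 ∘ A1 ~ A3`. -/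
theorem sim_comp [Finite U] [Finite W] [Finite V] (two : ∀ v : V, v + v = 0) (D : AddSubgroup U)
    (k k1 k2 k3 : ℕ) (hk : D.index ≤ k) {H1 : AddSubgroup (U × W)} {H2 : AddSubgroup (W × V)}
    {H3 : AddSubgroup (U × V)} {A1 : U →+ W} {A2 : W →+ V} {A3 : U →+ V} (s1 : Sec H1 A1 k1) (s2 : Sec H2 A2 k2)
    (s3 : Sec H3 A3 k3) (h : ∀ x ∈ D, ∃ y z, (x, y) ∈ H1 ∧ (y, z) ∈ H2 ∧ (x, z) ∈ H3) :
    Sim (k * (k1 * k2 * k3)) (A2.comp A1) A3 := by
  refine sim_of_domain D _ _ k _ hk ((A2 '' ind H1) + ind H2 + ind H3) (Set.toFinite _) ?_ ?_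
  · refine (ncard_add_le3 _ _ _).trans (Nat.mul_le_mul (Nat.mul_le_mul ?_ s2.le) s3.le)
    exact (Set.ncard_image_le (Set.toFinite _)).trans s1.le
  · intro x hx
    obtain ⟨y, z, h1, h2, h3⟩ := h x hx
    obtain ⟨i1, hi1, e1⟩ := s1.split h1
    obtain ⟨i2, hi2, e2⟩ := s2.split h2
    obtain ⟨i3, hi3, e3⟩ := s3.split h3
    show A2 (A1 x) + A3 x ∈ _
    rw [e1, map_add, e2, e3]
    have e : z + i2 + A2 i1 + (z + i3) = (z + z) + (A2 i1 + i2 + i3) := by abel
    rw [e, two, zero_add]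
    exact Set.add_mem_add (Set.add_mem_add ⟨i1, hi1, rfl⟩ hi2) hi3

/-- **Square**: `(x, y) ∈ H1`, `(y, z) ∈ H2`, `(x, w) ∈ H3`, `(w, z) ∈ H4` over `D`: `A2 ∘ A1 ~ A4 ∘ A3`. -/
theorem sim_square {V' : Type*} [AddCommGroup V'] [Finite U] [Finite W] [Finite V] [Finite V']
    (two : ∀ v : V, v + v = 0) (D : AddSubgroup U) (k k1 k2 k3 k4 : ℕ) (hk : D.index ≤ k)
    {H1 : AddSubgroup (U × W)} {H2 : AddSubgroup (W × V)} {H3 : AddSubgroup (U × V')} {H4 : AddSubgroup (V' × V)}
    {A1 : U →+ W} {A2 : W →+ V} {A3 : U →+ V'} {A4 : V' →+ V} (s1 : Sec H1 A1 k1) (s2 : Sec H2 A2 k2)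
    (s3 : Sec H3 A3 k3) (s4 : Sec H4 A4 k4)
    (h : ∀ x ∈ D, ∃ y z w, (x, y) ∈ H1 ∧ (y, z) ∈ H2 ∧ (x, w) ∈ H3 ∧ (w, z) ∈ H4) :
    Sim (k * (k1 * k2 * (k3 * k4))) (A2.comp A1) (A4.comp A3) := by
  refine sim_of_domain D _ _ k _ hk (((A2 '' ind H1) + ind H2) + ((A4 '' ind H3) + ind H4)) (Set.toFinite _) ?_ ?_
  · have h0 := Set.natCard_add_le (s := (A2 '' ind H1) + ind H2) (t := (A4 '' ind H3) + ind H4)
    have h2 := Set.natCard_add_le (s := A2 '' ind H1) (t := ind H2)
    have h4 := Set.natCard_add_le (s := A4 '' ind H3) (t := ind H4)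
    rw [Nat.card_coe_set_eq, Nat.card_coe_set_eq, Nat.card_coe_set_eq] at h0 h2 h4
    refine h0.trans (Nat.mul_le_mul (h2.trans (Nat.mul_le_mul ?_ s2.le)) (h4.trans (Nat.mul_le_mul ?_ s4.le)))
    · exact (Set.ncard_image_le (Set.toFinite _)).trans s1.le
    · exact (Set.ncard_image_le (Set.toFinite _)).trans s3.le
  · intro x hx
    obtain ⟨y, z, w, h1, h2, h3, h4⟩ := h x hx
    obtain ⟨i1, hi1, e1⟩ := s1.split h1
    obtain ⟨i2, hi2, e2⟩ := s2.split h2
    obtain ⟨i3, hi3, e3⟩ := s3.split h3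
    obtain ⟨i4, hi4, e4⟩ := s4.split h4
    show A2 (A1 x) + A4 (A3 x) ∈ _
    rw [e1, e3, map_add, map_add, e2, e4]
    have e : z + i2 + A2 i1 + (z + i4 + A4 i3) = (z + z) + ((A2 i1 + i2) + (A4 i3 + i4)) := by abel
    rw [e, two, zero_add]
    exact Set.add_mem_add (Set.add_mem_add ⟨i1, hi1, rfl⟩ hi2) (Set.add_mem_add ⟨i3, hi3, rfl⟩ hi4)

/-- **A product relation** `A1 (A2 x) + A3 x ∈` ..., with a constant: for one fixed `x0`, the values of `A x0` are
determined up to the indeterminacy: `(x, y) ∈ H` gives `A x = y + i`. -/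
theorem Sec.val {H : AddSubgroup (U × W)} {A : U →+ W} {k : ℕ} (s : Sec H A k) {x x' : U} {y y' : W}
    (h : (x, y) ∈ H) (h' : (x', y') ∈ H) : A (x + x') - (y + y') ∈ ind H :=
  s.diff (by simpa using H.add_mem h h')

/-! ### R3: words -/

section words

variable {G : Type*} [AddCommGroup G]

/-- words which are sums of at most `b` lines have operators with at most `C ^ b` values -/
theorem card_range_ball [Finite W] (E : G →+ (U →+ W)) (T : Set G) (C : ℕ) (hT : ∀ t ∈ T, Nat.card (E t).range ≤ C)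
    (hC : 1 ≤ C) (b : ℕ) : ∀ g ∈ Ball T b, Nat.card (E g).range ≤ C ^ b := by
  have key : ∀ l : List G, (∀ x ∈ l, x ∈ T) → Nat.card (E l.sum).range ≤ C ^ l.length := by
    intro l
    induction l with
    | nil =>
      intro _
      simp only [List.sum_nil, map_zero, List.length_nil, pow_zero]
      rw [AddMonoidHom.range_zero]
      exact le_of_eq AddSubgroup.card_bot
    | cons a l ih =>
      intro h
      rw [List.sum_cons, map_add, List.length_cons, pow_succ, mul_comm]
      refine (card_range_add_le _ _).trans (Nat.mul_le_mul (hT a (h a (by simp))) (ih ?_))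
      intro x hx
      exact h x (by simp [hx])
  rintro g ⟨l, hl, hT', rfl⟩
  exact (key l hT').trans (Nat.pow_le_pow_right hC hl)

/-- sums of balls -/
theorem ball_add {T : Set G} {r r' : ℕ} {g g' : G} (hg : g ∈ Ball T r) (hg' : g' ∈ Ball T r') :
    g + g' ∈ Ball T (r + r') := by
  obtain ⟨l, h1, h2, h3⟩ := hg
  obtain ⟨l', h1', h2', h3'⟩ := hg'
  refine ⟨l ++ l', by rw [List.length_append]; omega, fun x hx => ?_, by rw [List.sum_append, h3, h3']⟩
  rcases List.mem_append.mp hx with h | h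
  · exact h2 x h
  · exact h2' x h

/-- the data of the word calculus: `G` the group of words, `S` its letters, `T` its lines, `p` the value, `E` the
operator; words of at most `3 l` letters of value zero are sums of at most `b` lines; every value in `U'` is attained
by a word of at most `l` letters; lines have operators with at most `C` values -/
structure Words (S T : Set G) (p : G →+ V) (E : G →+ (U →+ W)) (l b C : ℕ) : Prop where
  two : ∀ g : G, g + g = 0
  inj : ∀ g ∈ Ball S (3 * l), p g = 0 → g ∈ Ball T b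
  gen : ∀ v : V, ∃ g ∈ Ball S l, p g = v
  op : ∀ t ∈ T, Nat.card (E t).range ≤ C
  C_pos : 1 ≤ C

/-- **The operator of a value.** -/
theorem Words.exists_L [Finite W] {S T : Set G} {p : G →+ V} {E : G →+ (U →+ W)} {l b C : ℕ}
    (h : Words S T p E l b C) :
    ∃ L : V → (U →+ W), (∀ g ∈ Ball S (2 * l), Sim (C ^ b) (L (p g)) (E g)) ∧
      (∀ u u' : V, Sim (C ^ b) (L (u + u')) (L u + L u')) := by
  choose w hw hp using h.gen
  have tv : ∀ v : V, v + v = 0 := by
    intro v
    rw [← hp v, ← map_add, h.two, map_zero]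
  refine ⟨fun v => E (w v), ?_, ?_⟩
  · intro g hg
    have h1 : w (p g) + g ∈ Ball S (3 * l) := by
      have := ball_add (hw (p g)) hg
      rwa [show l + 2 * l = 3 * l by ring] at this
    have h2 : p (w (p g) + g) = 0 := by
      rw [map_add, hp, tv]
    have h3 := card_range_ball E T C h.op h.C_pos b _ (h.inj _ h1 h2)
    rw [map_add] at h3
    exact h3
  · intro u u'
    have h1 : w (u + u') + (w u + w u') ∈ Ball S (3 * l) := by
      have := ball_add (hw (u + u')) (ball_add (hw u) (hw u'))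
      rwa [show l + (l + l) = 3 * l by ring] at this
    have h2 : p (w (u + u') + (w u + w u')) = 0 := by
      rw [map_add, map_add, hp, hp, hp, tv]
    have h3 := card_range_ball E T C h.op h.C_pos b _ (h.inj _ h1 h2)
    rw [map_add, map_add] at h3
    exact h3

theorem mem_ball_one {S : Set G} {g : G} (hg : g ∈ S) {l : ℕ} (hl : 1 ≤ l) : g ∈ Ball S l :=
  ⟨[g], by simpa using hl, by simpa using hg, by simp⟩

theorem mem_ball_two {S : Set G} {g g' : G} (hg : g ∈ S) (hg' : g' ∈ S) {l : ℕ} (hl : 2 ≤ l) : g + g' ∈ Ball S l :=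
  ⟨[g, g'], by simpa using hl, by simp [hg, hg'], by simp⟩

end words

/-! ### the operator of a word in letters -/

/-- the map `ZMod 2 → M`, `1 ↦ m` -/
noncomputable def zl {M : Type*} [AddCommGroup M] (two : ∀ m : M, m + m = 0) (m : M) : ZMod 2 →+ M :=
  ZMod.lift 2 ⟨zmultiplesHom M m, by simp [two_zsmul, two]⟩

theorem zl_one {M : Type*} [AddCommGroup M] (two : ∀ m : M, m + m = 0) (m : M) : zl two m 1 = m := by
  have h := ZMod.lift_coe 2 ⟨zmultiplesHom M m, by simp [two_zsmul, two]⟩ (1 : ℤ)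
  unfold zl
  simpa using h

/-- linear extension to words of `A : X → M`, `M` of exponent two -/
noncomputable def ev {X : Type*} {M : Type*} [AddCommGroup M] (two : ∀ m : M, m + m = 0) (A : X → M) :
    (X →₀ ZMod 2) →+ M := Finsupp.liftAddHom (fun x => zl two (A x))

theorem ev_single {X : Type*} {M : Type*} [AddCommGroup M] (two : ∀ m : M, m + m = 0) (A : X → M) (x : X) :
    ev two A (Finsupp.single x 1) = A x := by
  unfold ev
  rw [Finsupp.liftAddHom_apply_single, zl_one]

theorem ev_sy {X : Type} {M : Type*} [AddCommGroup M] (two : ∀ m : M, m + m = 0) (A : X → M) (x : X) :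
    ev two A (sy x) = A x := ev_single two A x

theorem ev_unique {X : Type*} {M : Type*} [AddCommGroup M] (two : ∀ m : M, m + m = 0) (A : X → M)
    (F : (X →₀ ZMod 2) →+ M) (hF : ∀ x, F (Finsupp.single x 1) = A x) : F = ev two A := by
  refine Finsupp.addHom_ext (fun x y => ?_)
  have h : y = 0 ∨ y = 1 := by
    revert y
    decide
  rcases h with h | h
  · subst h
    rw [Finsupp.single_zero, map_zero, map_zero]
  · subst h
    rw [hF, ev_single]

theorem hom_two {U W : Type*} [AddCommGroup U] [AddCommGroup W] (two : ∀ w : W, w + w = 0) :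
    ∀ f : U →+ W, f + f = 0 := map_two two

/-- **R3.**  `X0` letters with operators `A`, values `p`; lines `T`.  -/
theorem exists_L_letters {X : Type} [Finite W] (two : ∀ w : W, w + w = 0) (X0 : Set X) (T : Set (X →₀ ZMod 2))
    (p : (X →₀ ZMod 2) →+ V) (A : X → (U →+ W)) (l b C : ℕ) (hl : 1 ≤ l) (hC : 1 ≤ C)
    (inj : ∀ g ∈ Ball {g | ∃ x ∈ X0, g = sy x} (3 * l), p g = 0 → g ∈ Ball T b)
    (gen : ∀ v : V, ∃ g ∈ Ball {g | ∃ x ∈ X0, g = sy x} l, p g = v)
    (op : ∀ t ∈ T, Nat.card (ev (map_two two) A t).range ≤ C) :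
    ∃ L : V → (U →+ W),
      (∀ g ∈ Ball {g | ∃ x ∈ X0, g = sy x} (2 * l), Sim (C ^ b) (L (p g)) (ev (map_two two) A g)) ∧
      (∀ x ∈ X0, Sim (C ^ b) (L (p (sy x))) (A x)) ∧
      (∀ x ∈ X0, ∀ y ∈ X0, Sim (C ^ b) (L (p (sy x) + p (sy y))) (A x + A y)) ∧
      (∀ u u' : V, Sim (C ^ b) (L (u + u')) (L u + L u')) := by
  have hW : Words {g : X →₀ ZMod 2 | ∃ x ∈ X0, g = sy x} T p (ev (map_two two) A) l b C :=
    ⟨Pool.Agent.helper35.MF.two_eq, inj, gen, op, hC⟩
  obtain ⟨L, h1, h2⟩ := hW.exists_L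
  refine ⟨L, h1, ?_, ?_, h2⟩
  · intro x hx
    have h3 := h1 (sy x) (mem_ball_one (S := {g | ∃ x ∈ X0, g = sy x}) ⟨x, hx, rfl⟩ (by omega))
    rwa [ev_sy] at h3
  · intro x hx y hy
    have h3 := h1 (sy x + sy y)
      (mem_ball_two (S := {g | ∃ x ∈ X0, g = sy x}) ⟨x, hx, rfl⟩ ⟨y, hy, rfl⟩ (by omega))
    rwa [map_add, map_add, ev_sy, ev_sy] at h3

end Helper34MF
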