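import Mathlib

set_option autoImplicit false

/-!
# MP_141f81, Section 9: the compression lemma T1 (pure algebra)

A biadditive map in exponent two whose rows have at most `k` values and whose columns have finitely many values has
finitely many values, and they span a finite group.
-/

namespace Helper34MF

/-- a finitely generated group of exponent two is finite -/
theorem closure_finite {E : Type*} [AddCommGroup E] (two : ∀ e : E, e + e = 0) (S : Set E) (hS : S.Finite) :
    Finite (AddSubgroup.closure S) := by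
  have h1 : (AddSubgroup.closure S).FG := ⟨hS.toFinset, by rw [hS.coe_toFinset]⟩
  have h2 : AddGroup.FG (AddSubgroup.closure S) := (AddGroup.fg_iff_addSubgroup_fg _).mpr h1
  have h3 : IsAddTorsion (AddSubgroup.closure S) := by
    intro x
    rw [isOfFinAddOrder_iff_nsmul_eq_zero]
    refine ⟨2, by norm_num, ?_⟩
    rw [two_nsmul]
    exact Subtype.ext (two x.1)
  exact AddCommGroup.finite_of_fg_isAddTorsion _ h3

variable {A B E : Type*} [AddCommGroup A] [AddCommGroup B] [AddCommGroup E]

/-- **T1, values.** -/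
theorem values_finite (f : A →+ B →+ E) (k : ℕ)
    (h1 : ∀ a, Finite (f a).range ∧ Nat.card (f a).range ≤ k) (h2 : ∀ b, Finite (f.flip b).range) :
    {e | ∃ a b, f a b = e}.Finite := by
  classical
  -- a row of maximal size
  obtain ⟨a1, ha1⟩ : ∃ a1, ∀ a, Nat.card (f a).range ≤ Nat.card (f a1).range := by
    let s : Set ℕ := {m | ∃ a, Nat.card (f a).range = m}
    have hs : s.Nonempty := ⟨_, 0, rfl⟩
    have hb : BddAbove s := ⟨k, by rintro m ⟨a, rfl⟩; exact (h1 a).2⟩
    obtain ⟨a1, h⟩ := Nat.sSup_mem hs hb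
    exact ⟨a1, fun a => by rw [h]; exact le_csSup hb ⟨a, rfl⟩⟩
  have : Finite (f a1).range := (h1 a1).1
  choose b hb using fun e : (f a1).range => e.2
  let Y : AddSubgroup A := ⨅ e : (f a1).range, (f.flip (b e)).ker
  have hY : Y.FiniteIndex := by
    refine AddSubgroup.finiteIndex_iInf (fun e => ?_)
    have := h2 (b e)
    exact AddSubgroup.finiteIndex_ker _
  have key : ∀ y ∈ Y, ∀ v, f y v ∈ (f a1).range := by
    intro y hy v
    have hy' : ∀ e : (f a1).range, f y (b e) = 0 := by
      intro e
      exact (AddSubgroup.mem_iInf.mp hy e)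
    have hle : (f a1).range ≤ (f (a1 + y)).range := by
      intro e he
      refine ⟨b ⟨e, he⟩, ?_⟩
      rw [map_add, AddMonoidHom.add_apply, hb ⟨e, he⟩, hy' ⟨e, he⟩, add_zero]
    have hfin : Finite (f (a1 + y)).range := (h1 (a1 + y)).1
    have heq : (f a1).range = (f (a1 + y)).range := by
      refine AddSubgroup.eq_of_le_of_card_ge hle (ha1 (a1 + y))
    have h3 : f (a1 + y) v ∈ (f a1).range := by rw [heq]; exact ⟨v, rfl⟩
    have h4 : f y v = f (a1 + y) v - f a1 v := by
      rw [map_add, AddMonoidHom.add_apply]; abel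
    rw [h4]
    exact (f a1).range.sub_mem h3 ⟨v, rfl⟩
  -- coset representatives
  have hq : Finite (A ⧸ Y) := AddSubgroup.finite_quotient_of_finiteIndex
  have hfin : (⋃ q : A ⧸ Y, Set.image2 (fun x y => x + y) ((f q.out).range : Set E) ((f a1).range : Set E)).Finite := by
    refine Set.finite_iUnion (fun q => ?_)
    have : Finite (f q.out).range := (h1 _).1
    exact Set.Finite.image2 _ (Set.toFinite _) (Set.toFinite _)
  refine hfin.subset ?_
  rintro e ⟨a, v, rfl⟩
  rw [Set.mem_iUnion]
  refine ⟨(a : A ⧸ Y), f (Quotient.out (a : A ⧸ Y)) v, ⟨v, rfl⟩, f (a - Quotient.out (a : A ⧸ Y)) v, ?_, ?_⟩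
  · refine key _ ?_ v
    have h5 : ((Quotient.out (a : A ⧸ Y) : A) : A ⧸ Y) = (a : A ⧸ Y) := QuotientAddGroup.out_eq' _
    have h6 := QuotientAddGroup.eq.mp h5
    have h7 : a - Quotient.out (a : A ⧸ Y) = -Quotient.out (a : A ⧸ Y) + a := by abel
    rw [h7]
    exact h6
  · show f _ v + f _ v = f a v
    rw [map_sub, AddMonoidHom.sub_apply]
    abel

/-- **T1, span.** -/
theorem span_finite (two : ∀ e : E, e + e = 0) (f : A →+ B →+ E) (k : ℕ)
    (h1 : ∀ a, Finite (f a).range ∧ Nat.card (f a).range ≤ k) (h2 : ∀ b, Finite (f.flip b).range) :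
    Finite (AddSubgroup.closure {e | ∃ a b, f a b = e}) :=
  closure_finite two _ (values_finite f k h1 h2)

end Helper34MF
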